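import Mathlib

/-!
Asymptotics of the integral of the maximum of a positive periodic function and of a large cosine.
-/

set_option autoImplicit false
open MeasureTheory Set Filter Topology

namespace Pool.Agent.Helper713_string

/-- the integral of the maximum of `g` and of `R cos (s - θ)` -/
noncomputable def J (g : ℝ → ℝ) (θ R : ℝ) : ℝ :=
  ∫ s in (0 : ℝ)..(2 * Real.pi), max (g s) (R * Real.cos (s - θ))

/-- the integral over the half circle opposite to `θ` -/
noncomputable def Hf (g : ℝ → ℝ) (θ : ℝ) : ℝ :=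
  ∫ s in (Real.pi / 2)..(3 * Real.pi / 2), g (θ + s)

/-- the sum of the squares at right angles -/
noncomputable def Sf (g : ℝ → ℝ) (θ : ℝ) : ℝ :=
  g (θ + Real.pi / 2) ^ 2 + g (θ - Real.pi / 2) ^ 2

/-- positive, periodic, bounded and Lipschitz -/
structure Good (g : ℝ → ℝ) (ρ : ℝ) : Prop where
  cont : Continuous g
  per : ∀ s, g (s + 2 * Real.pi) = g s
  pos : ∀ s, 0 < g s
  le : ∀ s, g s ≤ ρ
  lip : ∀ a b, |g a - g b| ≤ ρ * |a - b|

theorem U_bound {γ : ℝ → ℝ} {ρ R : ℝ} (hc : Continuous γ) (hpos : ∀ v, 0 < γ v)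
    (hle : ∀ v, γ v ≤ ρ) (hlip : ∀ v, 0 ≤ v → |γ v - γ 0| ≤ ρ * v) (hR : 2 * ρ ≤ R) :
    |(∫ v in (0 : ℝ)..(Real.pi / 2), max (γ v - R * Real.sin v) 0) - γ 0 ^ 2 / (2 * R)| ≤
      6 * ρ ^ 3 / R ^ 2 := by
  have hρ : 0 < ρ := (hpos 0).trans_le (hle 0)
  have hR0 : 0 < R := by linarith
  have hpi := Real.pi_pos
  have hpi3 := Real.pi_gt_three
  have hpi4 := Real.pi_lt_four
  set v0 : ℝ := Real.pi * ρ / (2 * R) with hv0
  have hv0pos : 0 < v0 := by positivity
  have hv0le : v0 ≤ Real.pi / 4 := by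
    rw [hv0, div_le_div_iff₀ (by positivity) (by norm_num)]
    nlinarith
  have hv01 : v0 ≤ 1 := by linarith
  have hv02 : v0 ≤ 2 * ρ / R := by
    rw [hv0, div_le_div_iff₀ (by positivity) hR0]
    nlinarith [mul_pos hρ hR0]
  have hcf : Continuous (fun v => max (γ v - R * Real.sin v) 0) := by fun_prop
  have hcg : Continuous (fun v => max (γ 0 - R * v) 0) := by fun_prop
  -- split
  have hsplit : ∫ v in (0 : ℝ)..(Real.pi / 2), max (γ v - R * Real.sin v) 0 =
      ∫ v in (0 : ℝ)..v0, max (γ v - R * Real.sin v) 0 := by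
    rw [← intervalIntegral.integral_add_adjacent_intervals (b := v0)
      (hcf.intervalIntegrable _ _) (hcf.intervalIntegrable _ _)]
    have : ∫ v in v0..(Real.pi / 2), max (γ v - R * Real.sin v) 0 =
        ∫ v in v0..(Real.pi / 2), (0 : ℝ) := by
      apply intervalIntegral.integral_congr
      intro v hv
      rw [uIcc_of_le (by linarith)] at hv
      apply max_eq_right
      have h1 := Real.mul_le_sin (hv0pos.le.trans hv.1) hv.2
      have h2 : 2 / Real.pi * v0 ≤ 2 / Real.pi * v := mul_le_mul_of_nonneg_left hv.1 (by positivity)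
      have h3 : R * (2 / Real.pi * v0) = ρ := by
        rw [hv0]; field_simp
      have h4 : R * (2 / Real.pi * v0) ≤ R * Real.sin v :=
        mul_le_mul_of_nonneg_left (h2.trans h1) hR0.le
      have := hle v
      linarith
    rw [this]; simp
  have hg : ∫ v in (0 : ℝ)..v0, max (γ 0 - R * v) 0 = γ 0 ^ 2 / (2 * R) := by
    have hb0 : 0 < γ 0 / R := div_pos (hpos 0) hR0
    have hb1 : γ 0 / R ≤ v0 := by
      rw [hv0, div_le_div_iff₀ hR0 (by positivity)]
      have := hle 0
      nlinarith [mul_pos hρ hR0]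
    rw [← intervalIntegral.integral_add_adjacent_intervals (b := γ 0 / R)
      (hcg.intervalIntegrable _ _) (hcg.intervalIntegrable _ _)]
    have e1 : ∫ v in (0 : ℝ)..(γ 0 / R), max (γ 0 - R * v) 0 =
        ∫ v in (0 : ℝ)..(γ 0 / R), (γ 0 - R * v) := by
      apply intervalIntegral.integral_congr
      intro v hv
      rw [uIcc_of_le hb0.le] at hv
      apply max_eq_left
      have := mul_le_mul_of_nonneg_left hv.2 hR0.le
      rw [mul_div_cancel₀ _ hR0.ne'] at this
      linarith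
    have e2 : ∫ v in (γ 0 / R)..v0, max (γ 0 - R * v) 0 = ∫ v in (γ 0 / R)..v0, (0 : ℝ) := by
      apply intervalIntegral.integral_congr
      intro v hv
      rw [uIcc_of_le hb1] at hv
      apply max_eq_right
      have := mul_le_mul_of_nonneg_left hv.1 hR0.le
      rw [mul_div_cancel₀ _ hR0.ne'] at this
      linarith
    rw [e1, e2]
    rw [intervalIntegral.integral_sub (by simp) (by
      apply Continuous.intervalIntegrable; fun_prop), intervalIntegral.integral_const_mul,
      integral_id]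
    simp
    field_simp
    ring
  rw [hsplit, ← hg, ← intervalIntegral.integral_sub (hcf.intervalIntegrable _ _)
    (hcg.intervalIntegrable _ _)]
  have hb : ∀ v ∈ uIoc (0 : ℝ) v0, ‖max (γ v - R * Real.sin v) 0 - max (γ 0 - R * v) 0‖ ≤
      ρ * v0 + R * v0 ^ 3 / 4 := by
    intro v hv
    rw [uIoc_of_le hv0pos.le] at hv
    rw [Real.norm_eq_abs]
    have h1 : |max (γ v - R * Real.sin v) 0 - max (γ 0 - R * v) 0| ≤
        |(γ v - R * Real.sin v) - (γ 0 - R * v)| := abs_max_sub_max_le_abs _ _ _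
    refine h1.trans ?_
    have h2 : (γ v - R * Real.sin v) - (γ 0 - R * v) = (γ v - γ 0) + R * (v - Real.sin v) := by ring
    rw [h2]
    refine (abs_add_le _ _).trans ?_
    have h3 := hlip v hv.1.le
    have h4 : 0 ≤ v - Real.sin v := by
      have := Real.sin_lt hv.1
      linarith
    have h5 : v - Real.sin v ≤ v ^ 3 / 4 := by
      have := Real.sin_gt_sub_cube hv.1
      have h9 : 0 ≤ v ^ 3 := pow_nonneg hv.1.le 3
      linarith
    rw [abs_of_nonneg (mul_nonneg hR0.le h4)]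
    have h6 : v ^ 3 ≤ v0 ^ 3 := pow_le_pow_left₀ hv.1.le hv.2 3
    have h7 : R * (v - Real.sin v) ≤ R * (v0 ^ 3 / 4) :=
      mul_le_mul_of_nonneg_left (by linarith) hR0.le
    have h8 : ρ * v ≤ ρ * v0 := mul_le_mul_of_nonneg_left hv.2 hρ.le
    linarith
  have h := intervalIntegral.norm_integral_le_of_norm_le_const hb
  rw [Real.norm_eq_abs, sub_zero, abs_of_pos hv0pos] at h
  refine h.trans ?_
  have k1 : v0 ^ 2 ≤ (2 * ρ / R) ^ 2 := pow_le_pow_left₀ hv0pos.le hv02 2
  have k2 : v0 ^ 4 ≤ (2 * ρ / R) ^ 4 := pow_le_pow_left₀ hv0pos.le hv02 4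
  have k3 : (ρ * v0 + R * v0 ^ 3 / 4) * v0 = ρ * v0 ^ 2 + R * v0 ^ 4 / 4 := by ring
  rw [k3]
  have k4 : ρ * v0 ^ 2 ≤ 4 * ρ ^ 3 / R ^ 2 := by
    calc ρ * v0 ^ 2 ≤ ρ * (2 * ρ / R) ^ 2 := mul_le_mul_of_nonneg_left k1 hρ.le
      _ = 4 * ρ ^ 3 / R ^ 2 := by field_simp; ring
  have k5 : R * v0 ^ 4 / 4 ≤ 2 * ρ ^ 3 / R ^ 2 := by
    have : R * v0 ^ 4 / 4 ≤ R * (2 * ρ / R) ^ 4 / 4 := by
      have := mul_le_mul_of_nonneg_left k2 hR0.le
      linarith
    refine this.trans ?_
    have e : R * (2 * ρ / R) ^ 4 / 4 = (2 * ρ ^ 3 / R ^ 2) * (2 * ρ / R) := by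
      field_simp; ring
    rw [e]
    have e2 : 2 * ρ / R ≤ 1 := by rw [div_le_one hR0]; exact hR
    have e3 : 0 ≤ 2 * ρ ^ 3 / R ^ 2 := by positivity
    calc (2 * ρ ^ 3 / R ^ 2) * (2 * ρ / R) ≤ (2 * ρ ^ 3 / R ^ 2) * 1 :=
          mul_le_mul_of_nonneg_left e2 e3
      _ = _ := mul_one _
  have k6 : 6 * ρ ^ 3 / R ^ 2 = 4 * ρ ^ 3 / R ^ 2 + 2 * ρ ^ 3 / R ^ 2 := by ring
  rw [k6]
  linarith

theorem U_nonneg (γ : ℝ → ℝ) (R : ℝ) :
    0 ≤ ∫ v in (0 : ℝ)..(Real.pi / 2), max (γ v - R * Real.sin v) 0 := by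
  apply intervalIntegral.integral_nonneg (by positivity)
  intro v _
  exact le_max_right _ _

theorem J_shift {g : ℝ → ℝ} (hper : ∀ s, g (s + 2 * Real.pi) = g s) (θ R a : ℝ) :
    J g θ R = ∫ s in a..(a + 2 * Real.pi), max (g (θ + s)) (R * Real.cos s) := by
  have hF : Function.Periodic (fun s => max (g s) (R * Real.cos (s - θ))) (2 * Real.pi) := by
    intro s
    show max (g (s + 2 * Real.pi)) (R * Real.cos (s + 2 * Real.pi - θ)) = _
    rw [hper]
    have : s + 2 * Real.pi - θ = (s - θ) + 2 * Real.pi := by ring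
    rw [this, Real.cos_add_two_pi]
  have h1 := hF.intervalIntegral_add_eq 0 (θ + a)
  rw [zero_add] at h1
  unfold J
  rw [h1]
  have h2 := intervalIntegral.integral_comp_add_left (a := a) (b := a + 2 * Real.pi)
    (fun s => max (g s) (R * Real.cos (s - θ))) θ
  simp only [add_sub_cancel_left] at h2
  rw [h2]
  congr 1
  ring

theorem J_eq {g : ℝ → ℝ} {ρ : ℝ} (hg : Good g ρ) (θ : ℝ) {R : ℝ} (hR : 0 ≤ R) :
    J g θ R = 2 * R + Hf g θ +
      (∫ v in (0 : ℝ)..(Real.pi / 2), max (g (θ + Real.pi / 2 - v) - R * Real.sin v) 0) +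
      (∫ v in (0 : ℝ)..(Real.pi / 2), max (g (θ - Real.pi / 2 + v) - R * Real.sin v) 0) := by
  have hpi := Real.pi_pos
  rw [J_shift hg.per θ R (-(Real.pi / 2))]
  have hgc := hg.cont
  have hcF : Continuous (fun s => max (g (θ + s)) (R * Real.cos s)) := by fun_prop
  have e0 : -(Real.pi / 2) + 2 * Real.pi = 3 * Real.pi / 2 := by ring
  rw [e0, ← intervalIntegral.integral_add_adjacent_intervals (b := Real.pi / 2)
    (hcF.intervalIntegrable _ _) (hcF.intervalIntegrable _ _),
    ← intervalIntegral.integral_add_adjacent_intervals (a := -(Real.pi / 2)) (b := 0)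
    (hcF.intervalIntegrable _ _) (hcF.intervalIntegrable _ _)]
  have e1 : ∫ s in (Real.pi / 2)..(3 * Real.pi / 2), max (g (θ + s)) (R * Real.cos s) =
      Hf g θ := by
    unfold Hf
    apply intervalIntegral.integral_congr
    intro s hs
    rw [uIcc_of_le (by linarith)] at hs
    apply max_eq_left
    have h1 : Real.cos s ≤ 0 := Real.cos_nonpos_of_pi_div_two_le_of_le hs.1 (by linarith [hs.2])
    have h2 := hg.pos (θ + s)
    nlinarith
  have hmax : ∀ a b : ℝ, max a b = b + max (a - b) 0 := by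
    intro a b
    rcases le_total a b with h | h
    · rw [max_eq_right h, max_eq_right (by linarith)]; ring
    · rw [max_eq_left h, max_eq_left (by linarith)]; ring
  have hcm : Continuous (fun s => max (g (θ + s) - R * Real.cos s) 0) := by fun_prop
  have hcc : Continuous (fun s => R * Real.cos s) := by fun_prop
  have e2 : ∫ s in (0 : ℝ)..(Real.pi / 2), max (g (θ + s)) (R * Real.cos s) =
      R + ∫ v in (0 : ℝ)..(Real.pi / 2), max (g (θ + Real.pi / 2 - v) - R * Real.sin v) 0 := by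
    have h1 : ∫ s in (0 : ℝ)..(Real.pi / 2), max (g (θ + s)) (R * Real.cos s) =
        ∫ s in (0 : ℝ)..(Real.pi / 2), (R * Real.cos s + max (g (θ + s) - R * Real.cos s) 0) := by
      apply intervalIntegral.integral_congr
      intro s _
      exact hmax _ _
    rw [h1, intervalIntegral.integral_add (hcc.intervalIntegrable _ _)
      (hcm.intervalIntegrable _ _), intervalIntegral.integral_const_mul, integral_cos]
    have h2 := intervalIntegral.integral_comp_sub_left (a := 0) (b := Real.pi / 2)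
      (fun s => max (g (θ + s) - R * Real.cos s) 0) (Real.pi / 2)
    simp only [sub_self, sub_zero, Real.cos_pi_div_two_sub] at h2
    rw [← h2]
    simp only [Real.sin_pi_div_two, Real.sin_zero, sub_zero, mul_one, add_sub_assoc]
  have e3 : ∫ s in (-(Real.pi / 2))..(0 : ℝ), max (g (θ + s)) (R * Real.cos s) =
      R + ∫ v in (0 : ℝ)..(Real.pi / 2), max (g (θ - Real.pi / 2 + v) - R * Real.sin v) 0 := by
    have h1 : ∫ s in (-(Real.pi / 2))..(0 : ℝ), max (g (θ + s)) (R * Real.cos s) =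
        ∫ s in (-(Real.pi / 2))..(0 : ℝ),
          (R * Real.cos s + max (g (θ + s) - R * Real.cos s) 0) := by
      apply intervalIntegral.integral_congr
      intro s _
      exact hmax _ _
    rw [h1, intervalIntegral.integral_add (hcc.intervalIntegrable _ _)
      (hcm.intervalIntegrable _ _), intervalIntegral.integral_const_mul, integral_cos]
    have h2 := intervalIntegral.integral_comp_add_left (a := 0) (b := Real.pi / 2)
      (fun s => max (g (θ + s) - R * Real.cos s) 0) (-(Real.pi / 2))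
    have h3 : ∀ v, Real.cos (-(Real.pi / 2) + v) = Real.sin v := by
      intro v
      rw [show -(Real.pi / 2) + v = v - Real.pi / 2 by ring, Real.cos_sub_pi_div_two]
    simp only [h3, add_zero, neg_add_cancel] at h2
    rw [← h2]
    simp only [Real.sin_neg, Real.sin_pi_div_two, Real.sin_zero]
    have h4 : ∀ v, θ + (-(Real.pi / 2) + v) = θ - Real.pi / 2 + v := by intro v; ring
    simp only [h4]
    ring
  rw [e1, e2, e3]
  ring

theorem J_ge {g : ℝ → ℝ} {ρ : ℝ} (hg : Good g ρ) (θ : ℝ) {R : ℝ} (hR : 0 ≤ R) :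
    2 * R + Hf g θ ≤ J g θ R := by
  rw [J_eq hg θ hR]
  have h1 := U_nonneg (fun v => g (θ + Real.pi / 2 - v)) R
  have h2 := U_nonneg (fun v => g (θ - Real.pi / 2 + v)) R
  linarith

theorem J_asym {g : ℝ → ℝ} {ρ : ℝ} (hg : Good g ρ) (θ : ℝ) {R : ℝ} (hR : 2 * ρ ≤ R) :
    |J g θ R - (2 * R + Hf g θ + Sf g θ / (2 * R))| ≤ 12 * ρ ^ 3 / R ^ 2 := by
  have hρ : 0 < ρ := (hg.pos 0).trans_le (hg.le 0)
  have hR0 : 0 < R := by linarith
  have hgc := hg.cont
  have h1 := U_bound (γ := fun v => g (θ + Real.pi / 2 - v)) (ρ := ρ) (R := R) (by fun_prop)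
    (fun v => hg.pos _) (fun v => hg.le _) (fun v hv => by
      have := hg.lip (θ + Real.pi / 2 - v) (θ + Real.pi / 2 - 0)
      have e : θ + Real.pi / 2 - v - (θ + Real.pi / 2 - 0) = -v := by ring
      rwa [e, abs_neg, abs_of_nonneg hv] at this) hR
  have h2 := U_bound (γ := fun v => g (θ - Real.pi / 2 + v)) (ρ := ρ) (R := R) (by fun_prop)
    (fun v => hg.pos _) (fun v => hg.le _) (fun v hv => by
      have := hg.lip (θ - Real.pi / 2 + v) (θ - Real.pi / 2 + 0)
      have e : θ - Real.pi / 2 + v - (θ - Real.pi / 2 + 0) = v := by ring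
      rwa [e, abs_of_nonneg hv] at this) hR
  simp only [sub_zero, add_zero] at h1 h2
  rw [J_eq hg θ hR0.le]
  set U1 := ∫ v in (0 : ℝ)..(Real.pi / 2), max (g (θ + Real.pi / 2 - v) - R * Real.sin v) 0
  set U2 := ∫ v in (0 : ℝ)..(Real.pi / 2), max (g (θ - Real.pi / 2 + v) - R * Real.sin v) 0
  have e : 2 * R + Hf g θ + U1 + U2 - (2 * R + Hf g θ + Sf g θ / (2 * R)) =
      (U1 - g (θ + Real.pi / 2) ^ 2 / (2 * R)) + (U2 - g (θ - Real.pi / 2) ^ 2 / (2 * R)) := by
    unfold Sf
    ring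
  rw [e]
  refine (abs_add_le _ _).trans ?_
  have k : 12 * ρ ^ 3 / R ^ 2 = 6 * ρ ^ 3 / R ^ 2 + 6 * ρ ^ 3 / R ^ 2 := by ring
  rw [k]
  linarith

theorem Hf_nonneg {g : ℝ → ℝ} {ρ : ℝ} (hg : Good g ρ) (θ : ℝ) : 0 ≤ Hf g θ := by
  unfold Hf
  have hpi := Real.pi_pos
  apply intervalIntegral.integral_nonneg (by linarith)
  intro s _
  exact (hg.pos _).le

/-- crude upper bound -/
theorem J_le {g : ℝ → ℝ} {ρ : ℝ} (hg : Good g ρ) (θ : ℝ) {R : ℝ} (hR : 0 ≤ R) :
    J g θ R ≤ 2 * R + 2 * Real.pi * ρ := by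
  have hpi := Real.pi_pos
  have hρ : 0 < ρ := (hg.pos 0).trans_le (hg.le 0)
  have hgc := hg.cont
  rw [J_eq hg θ hR]
  have k1 : Hf g θ ≤ Real.pi * ρ := by
    unfold Hf
    have : ∫ s in (Real.pi / 2)..(3 * Real.pi / 2), g (θ + s) ≤
        ∫ s in (Real.pi / 2)..(3 * Real.pi / 2), ρ := by
      apply intervalIntegral.integral_mono_on (by linarith)
      · apply Continuous.intervalIntegrable; fun_prop
      · simp
      · intro s _; exact hg.le _
    refine this.trans (le_of_eq ?_)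
    rw [intervalIntegral.integral_const, smul_eq_mul]
    ring
  have key : ∀ γ : ℝ → ℝ, Continuous γ → (∀ v, γ v ≤ ρ) →
      ∫ v in (0 : ℝ)..(Real.pi / 2), max (γ v - R * Real.sin v) 0 ≤ Real.pi / 2 * ρ := by
    intro γ hγ hle
    have : ∫ v in (0 : ℝ)..(Real.pi / 2), max (γ v - R * Real.sin v) 0 ≤
        ∫ v in (0 : ℝ)..(Real.pi / 2), ρ := by
      apply intervalIntegral.integral_mono_on (by positivity)
      · apply Continuous.intervalIntegrable; fun_prop
      · simp
      · intro v hv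
        apply max_le _ hρ.le
        have h1 : 0 ≤ Real.sin v := Real.sin_nonneg_of_nonneg_of_le_pi hv.1 (by linarith [hv.2])
        have := hle v
        have := mul_nonneg hR h1
        linarith
    refine this.trans (le_of_eq ?_)
    rw [intervalIntegral.integral_const, smul_eq_mul, sub_zero]
  have k2 := key (fun v => g (θ + Real.pi / 2 - v)) (by fun_prop) (fun v => hg.le _)
  have k3 := key (fun v => g (θ - Real.pi / 2 + v)) (by fun_prop) (fun v => hg.le _)
  linarith

theorem J_cont {g : ℝ → ℝ} (hg : Continuous g) (θ : ℝ) : Continuous (J g θ) := by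
  unfold J
  apply intervalIntegral.continuous_parametric_intervalIntegral_of_continuous' (by fun_prop)

/-- matching radii -/
theorem exists_match {g : ℝ → ℝ} {ρ : ℝ} (hg : Good g ρ) (θ θ' : ℝ) {R : ℝ} (hR : 0 ≤ R) :
    ∃ R', 0 ≤ R' ∧ J g θ' R' = J g θ R ∧ |R' - R| ≤ Real.pi * ρ := by
  have hpi := Real.pi_pos
  have h0 : J g θ' 0 ≤ J g θ R := by
    have e : J g θ' 0 = J g θ 0 := by
      unfold J; simp
    rw [e]
    unfold J
    have hgc := hg.cont
    rw [show (∫ s in (0 : ℝ)..(2 * Real.pi), max (g s) (0 * Real.cos (s - θ))) =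
      ∫ s in (0 : ℝ)..(2 * Real.pi), g s from ?_]
    · apply intervalIntegral.integral_mono_on (by positivity)
      · exact hgc.intervalIntegrable _ _
      · apply Continuous.intervalIntegrable; fun_prop
      · intro s _; exact le_max_left _ _
    · apply intervalIntegral.integral_congr
      intro s _
      simp only [zero_mul]
      exact max_eq_left (hg.pos s).le
  have hJpos : 0 ≤ J g θ R := by
    have := J_ge hg θ hR
    have := Hf_nonneg hg θ
    linarith
  have h1 : J g θ R ≤ J g θ' (J g θ R / 2) := by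
    have h2 := J_ge hg θ' (R := J g θ R / 2) (by positivity)
    have h3 := Hf_nonneg hg θ'
    linarith
  obtain ⟨R', hR', hJ⟩ := intermediate_value_Icc (a := 0) (b := J g θ R / 2) (by positivity)
    (J_cont hg.cont θ').continuousOn ⟨h0, h1⟩
  refine ⟨R', hR'.1, hJ, ?_⟩
  have a1 := J_ge hg θ hR
  have a2 := J_le hg θ hR
  have a3 := J_ge hg θ' hR'.1
  have a4 := J_le hg θ' hR'.1
  have a5 := Hf_nonneg hg θ
  have a6 := Hf_nonneg hg θ'
  rw [abs_le]
  constructor <;> linarith

/-- comparison of two functions whose level sets agree at infinity -/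
theorem compare {g g1 : ℝ → ℝ} {ρ R0 : ℝ} (hg : Good g ρ) (hg1 : Good g1 ρ)
    (hlev : ∀ θ θ' R R', R0 ≤ R → R0 ≤ R' → J g θ R = J g θ' R' → J g1 θ R = J g1 θ' R')
    (θ θ' : ℝ) : Hf g1 θ - Hf g θ = Hf g1 θ' - Hf g θ' ∧ Sf g1 θ - Sf g θ = Sf g1 θ' - Sf g θ' := by
  have hpi := Real.pi_pos
  have hρ : 0 < ρ := (hg.pos 0).trans_le (hg.le 0)
  set c : ℝ := Real.pi * ρ with hc
  have hcpos : 0 < c := by positivity
  set N : ℝ := |R0| + 2 * ρ + c + 1 with hN
  have hN0 : 0 < N := by positivity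
  -- the sequences
  have hex : ∀ n : ℕ, ∃ R', 0 ≤ R' ∧ J g θ' R' = J g θ (N + n) ∧ |R' - (N + n)| ≤ c := by
    intro n
    exact exists_match hg θ θ' (by positivity)
  choose R' hR'0 hR'J hR'b using hex
  set R : ℕ → ℝ := fun n => N + n with hR
  have hRtop : Tendsto R atTop atTop := tendsto_atTop_add_const_left _ _ tendsto_natCast_atTop_atTop
  have hR'ge : ∀ n, R n - c ≤ R' n := by
    intro n
    have := (abs_le.1 (hR'b n)).1
    simp only [hR]; linarith
  have hR'le : ∀ n, R' n ≤ R n + c := by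
    intro n
    have := (abs_le.1 (hR'b n)).2
    simp only [hR]; linarith
  have hR'top : Tendsto R' atTop atTop :=
    tendsto_atTop_mono hR'ge (tendsto_atTop_add_const_right _ _ hRtop)
  have hRN : ∀ n, N ≤ R n := by
    intro n; simp only [hR]; have : (0 : ℝ) ≤ n := by positivity
    linarith
  have hR0R : ∀ n, R0 ≤ R n := fun n => by
    have := hRN n; have := le_abs_self R0; linarith
  have hR0R' : ∀ n, R0 ≤ R' n := fun n => by
    have := hRN n; have := le_abs_self R0; have := hR'ge n; linarith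
  have h2R : ∀ n, 2 * ρ ≤ R n := fun n => by
    have := hRN n; have := abs_nonneg R0; linarith
  have h2R' : ∀ n, 2 * ρ ≤ R' n := fun n => by
    have := hRN n; have := abs_nonneg R0; have := hR'ge n; linarith
  have hRpos : ∀ n, 0 < R n := fun n => by have := h2R n; linarith
  have hR'pos : ∀ n, 0 < R' n := fun n => by have := h2R' n; linarith
  have hJ1 : ∀ n, J g1 θ (R n) = J g1 θ' (R' n) := fun n =>
    hlev θ θ' (R n) (R' n) (hR0R n) (hR0R' n) (hR'J n).symm
  set Δ := (Hf g1 θ - Hf g θ) - (Hf g1 θ' - Hf g θ') with hΔ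
  set S1 := Sf g1 θ - Sf g θ with hS1
  set S2 := Sf g1 θ' - Sf g θ' with hS2
  set C : ℝ := 24 * ρ ^ 3 with hC
  have main : ∀ n, |Δ + S1 / (2 * R n) - S2 / (2 * R' n)| ≤ C / R n ^ 2 + C / R' n ^ 2 := by
    intro n
    have b1 := J_asym hg θ (h2R n)
    have b2 := J_asym hg θ' (h2R' n)
    have b3 := J_asym hg1 θ (h2R n)
    have b4 := J_asym hg1 θ' (h2R' n)
    have e : Δ + S1 / (2 * R n) - S2 / (2 * R' n) =
      (J g θ (R n) - (2 * R n + Hf g θ + Sf g θ / (2 * R n))) -
      (J g θ' (R' n) - (2 * R' n + Hf g θ' + Sf g θ' / (2 * R' n))) -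
      (J g1 θ (R n) - (2 * R n + Hf g1 θ + Sf g1 θ / (2 * R n))) +
      (J g1 θ' (R' n) - (2 * R' n + Hf g1 θ' + Sf g1 θ' / (2 * R' n))) := by
      rw [hJ1 n, hR'J n]
      simp only [hΔ, hS1, hS2]
      ring
    rw [e]
    have k1 : C / R n ^ 2 = 12 * ρ ^ 3 / R n ^ 2 + 12 * ρ ^ 3 / R n ^ 2 := by
      rw [hC]; ring
    have k2 : C / R' n ^ 2 = 12 * ρ ^ 3 / R' n ^ 2 + 12 * ρ ^ 3 / R' n ^ 2 := by
      rw [hC]; ring
    rw [k1, k2]
    rw [abs_le] at b1 b2 b3 b4 ⊢
    constructor <;> linarith [b1.1, b1.2, b2.1, b2.2, b3.1, b3.2, b4.1, b4.2]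
  have hinv : Tendsto (fun n => (R n)⁻¹) atTop (𝓝 0) := tendsto_inv_atTop_zero.comp hRtop
  have hinv' : Tendsto (fun n => (R' n)⁻¹) atTop (𝓝 0) := tendsto_inv_atTop_zero.comp hR'top
  have hD : Δ = 0 := by
    have t1 : Tendsto (fun n => Δ + S1 / (2 * R n) - S2 / (2 * R' n)) atTop (𝓝 Δ) := by
      have : Tendsto (fun n => Δ + S1 / 2 * (R n)⁻¹ - S2 / 2 * (R' n)⁻¹) atTop
          (𝓝 (Δ + S1 / 2 * 0 - S2 / 2 * 0)) :=
        ((tendsto_const_nhds.add (hinv.const_mul _)).sub (hinv'.const_mul _))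
      rw [mul_zero, mul_zero, add_zero, sub_zero] at this
      refine this.congr fun n => ?_
      have := (hRpos n).ne'
      have := (hR'pos n).ne'
      field_simp
    have t2 : Tendsto (fun n => C / R n ^ 2 + C / R' n ^ 2) atTop (𝓝 0) := by
      have : Tendsto (fun n => C * ((R n)⁻¹ * (R n)⁻¹) + C * ((R' n)⁻¹ * (R' n)⁻¹)) atTop
          (𝓝 (C * (0 * 0) + C * (0 * 0))) :=
        (((hinv.mul hinv).const_mul C).add ((hinv'.mul hinv').const_mul C))
      simp only [mul_zero, add_zero] at this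
      refine this.congr fun n => ?_
      have := (hRpos n).ne'
      have := (hR'pos n).ne'
      field_simp
    have t3 : Tendsto (fun n => Δ + S1 / (2 * R n) - S2 / (2 * R' n)) atTop (𝓝 0) :=
      squeeze_zero_norm (fun n => by rw [Real.norm_eq_abs]; exact main n) t2
    exact tendsto_nhds_unique t1 t3
  have hS : S1 = S2 := by
    -- multiply by 2 R
    have hratio : Tendsto (fun n => R n / R' n) atTop (𝓝 1) := by
      have : Tendsto (fun n => 1 + (R n - R' n) * (R' n)⁻¹) atTop (𝓝 (1 + 0)) := by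
        apply tendsto_const_nhds.add
        apply squeeze_zero_norm (a := fun n => c * (R' n)⁻¹)
        · intro n
          rw [Real.norm_eq_abs, abs_mul, abs_of_pos (inv_pos.2 (hR'pos n))]
          apply mul_le_mul_of_nonneg_right _ (inv_pos.2 (hR'pos n)).le
          rw [abs_sub_comm]
          exact hR'b n
        · have := hinv'.const_mul c
          rwa [mul_zero] at this
      rw [add_zero] at this
      refine this.congr fun n => ?_
      have := (hR'pos n).ne'
      field_simp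
      ring
    have t1 : Tendsto (fun n => S1 - S2 * (R n / R' n)) atTop (𝓝 (S1 - S2 * 1)) :=
      tendsto_const_nhds.sub (hratio.const_mul _)
    have t2 : Tendsto (fun n => 2 * C * (R n)⁻¹ + 2 * C * ((R n / R' n) * (R' n)⁻¹)) atTop
        (𝓝 0) := by
      have : Tendsto (fun n => 2 * C * (R n)⁻¹ + 2 * C * ((R n / R' n) * (R' n)⁻¹)) atTop
          (𝓝 (2 * C * 0 + 2 * C * (1 * 0))) :=
        (hinv.const_mul _).add ((hratio.mul hinv').const_mul _)
      simpa using this
    have t3 : Tendsto (fun n => S1 - S2 * (R n / R' n)) atTop (𝓝 0) := by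
      apply squeeze_zero_norm (fun n => ?_) t2
      rw [Real.norm_eq_abs]
      have m := main n
      rw [hD, zero_add] at m
      have p1 := hRpos n
      have p2 := hR'pos n
      have e1 : S1 - S2 * (R n / R' n) = (S1 / (2 * R n) - S2 / (2 * R' n)) * (2 * R n) := by
        field_simp
      rw [e1, abs_mul, abs_of_pos (by positivity : (0 : ℝ) < 2 * R n)]
      have e2 : 2 * C * (R n)⁻¹ + 2 * C * ((R n / R' n) * (R' n)⁻¹) =
          (C / R n ^ 2 + C / R' n ^ 2) * (2 * R n) := by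
        field_simp
      rw [e2]
      exact mul_le_mul_of_nonneg_right m (by positivity)
    have := tendsto_nhds_unique t1 t3
    linarith
  exact ⟨by linarith, hS⟩

end Pool.Agent.Helper713_string
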