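import Pool.Agent.Helper713_string.Second

/-!
A plane convex body for which the square of the support function with respect to a point is a
positive quadratic form is an ellipse.
-/

set_option autoImplicit false
open MeasureTheory Metric Set Filter Topology
open scoped ENNReal

namespace Pool.Agent.Helper713_string

open Pool.Agent.Y508

/-- the linear part of the map of the disc onto the ellipse -/
noncomputable def lin (p q s : ℝ) : E2 →ₗ[ℝ] E2 where
  toFun y := pt (p * y 0) (q * y 0 + s * y 1)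
  map_add' x y := by
    ext i
    fin_cases i
    · simp; ring
    · simp; ring
  map_smul' a x := by
    ext i
    fin_cases i
    · simp; ring
    · simp; ring

theorem lin_zero (p q s : ℝ) (y : E2) : lin p q s y 0 = p * y 0 := rfl
theorem lin_one (p q s : ℝ) (y : E2) : lin p q s y 1 = q * y 0 + s * y 1 := rfl

theorem lin_inj {p q s : ℝ} (hp : 0 < p) (hs : 0 < s) : Function.Injective (lin p q s) := by
  rw [← LinearMap.ker_eq_bot, LinearMap.ker_eq_bot']
  intro y hy
  have h0 : p * y 0 = 0 := by rw [← lin_zero p q s, hy]; rfl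
  have h1 : q * y 0 + s * y 1 = 0 := by rw [← lin_one p q s, hy]; rfl
  have h2 : y 0 = 0 := by
    rcases mul_eq_zero.1 h0 with h | h
    · exact absurd h hp.ne'
    · exact h
  rw [h2, mul_zero, zero_add] at h1
  have h3 : y 1 = 0 := by
    rcases mul_eq_zero.1 h1 with h | h
    · exact absurd h hs.ne'
    · exact h
  ext i
  fin_cases i
  · exact h2
  · exact h3

theorem ellipse {K : Set E2} (hK : Body K) {c : E2} (hpos : ∀ θ, 0 < G K c θ) {α β γ : ℝ}
    (hq : ∀ θ, G K c θ ^ 2 =
      α * Real.cos θ ^ 2 + 2 * β * (Real.sin θ * Real.cos θ) + γ * Real.sin θ ^ 2) :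
    ∃ f : E2 ≃ᵃ[ℝ] E2, K = f '' Metric.closedBall 0 1 := by
  -- positivity of the form
  have hform : ∀ w : E2, w ≠ 0 → 0 < α * w 0 ^ 2 + 2 * β * (w 1 * w 0) + γ * w 1 ^ 2 ∧
      ∃ θ, w = ‖w‖ • ev θ ∧ α * w 0 ^ 2 + 2 * β * (w 1 * w 0) + γ * w 1 ^ 2 =
        (‖w‖ * G K c θ) ^ 2 := by
    intro w hw
    obtain ⟨θ, hθ⟩ := exists_pos_ev w hw
    have h0 : w 0 = ‖w‖ * Real.cos θ := by
      conv_lhs => rw [hθ]
      simp
    have h1 : w 1 = ‖w‖ * Real.sin θ := by
      conv_lhs => rw [hθ]
      simp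
    have e : α * w 0 ^ 2 + 2 * β * (w 1 * w 0) + γ * w 1 ^ 2 = (‖w‖ * G K c θ) ^ 2 := by
      rw [mul_pow, hq θ, h0, h1]
      ring
    refine ⟨?_, θ, hθ, e⟩
    rw [e]
    have := norm_pos_iff.2 hw
    have := hpos θ
    positivity
  have hα : 0 < α := by
    have h := (hform (pt 1 0) (by
      intro h
      have : (pt 1 0) 0 = (0 : E2) 0 := by rw [h]
      simp at this)).1
    simpa using h
  have hdet : 0 < α * γ - β ^ 2 := by
    have h := (hform (pt (-β) α) (by
      intro h
      have : (pt (-β) α) 1 = (0 : E2) 1 := by rw [h]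
      simp at this
      linarith)).1
    simp only [pt_zero, pt_one] at h
    have e : α * (-β) ^ 2 + 2 * β * (α * -β) + γ * α ^ 2 = α * (α * γ - β ^ 2) := by ring
    rw [e] at h
    exact (mul_pos_iff_of_pos_left hα).1 h
  set p := Real.sqrt α with hp
  have hp0 : 0 < p := Real.sqrt_pos.2 hα
  have hp2 : p ^ 2 = α := Real.sq_sqrt hα.le
  set q := β / p with hqq
  have hq1 : p * q = β := by rw [hqq]; field_simp
  set s := Real.sqrt ((α * γ - β ^ 2) / α) with hs
  have hs0 : 0 < s := Real.sqrt_pos.2 (div_pos hdet hα)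
  have hs2 : q ^ 2 + s ^ 2 = γ := by
    rw [hs, Real.sq_sqrt (div_pos hdet hα).le, hqq, div_pow, hp2]
    field_simp
    ring
  -- the form through the linear map
  have hform2 : ∀ θ, G K c θ ^ 2 = (p * Real.cos θ + q * Real.sin θ) ^ 2 +
      (s * Real.sin θ) ^ 2 := by
    intro θ
    rw [hq θ, ← hp2, ← hq1, ← hs2]
    ring
  have hinj := lin_inj (p := p) (q := q) (s := s) hp0 hs0
  set L : E2 ≃ₗ[ℝ] E2 := LinearEquiv.ofInjectiveEndo (lin p q s) hinj with hL
  have hLa : ∀ y, L y = lin p q s y := fun y => rfl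
  refine ⟨L.toAffineEquiv.trans (AffineEquiv.constVAdd ℝ E2 c), ?_⟩
  have hf : ∀ y, (L.toAffineEquiv.trans (AffineEquiv.constVAdd ℝ E2 c)) y = c + lin p q s y := by
    intro y; rfl
  have hip : ∀ y θ, ip (lin p q s y) θ =
      y 0 * (p * Real.cos θ + q * Real.sin θ) + y 1 * (s * Real.sin θ) := by
    intro y θ
    simp only [ip, lin_zero, lin_one]
    ring
  ext x
  constructor
  · intro hx
    set y := L.symm (x - c) with hy
    have hy' : lin p q s y = x - c := by rw [← hLa, hy, LinearEquiv.apply_symm_apply]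
    refine ⟨y, ?_, ?_⟩
    · rw [mem_closedBall_zero_iff]
      by_cases hy0 : y = 0
      · rw [hy0, norm_zero]; exact zero_le_one
      -- the dual vector
      set w1 := y 1 / s with hw1
      set w0 := (y 0 - q * w1) / p with hw0
      have k1 : s * w1 = y 1 := by rw [hw1]; field_simp
      have k0 : p * w0 + q * w1 = y 0 := by rw [hw0]; field_simp; ring
      set w : E2 := pt w0 w1 with hw
      have hwne : w ≠ 0 := by
        intro h
        apply hy0
        have h0 : w0 = 0 := by
          have : w 0 = (0 : E2) 0 := by rw [h]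
          simpa [hw] using this
        have h1 : w1 = 0 := by
          have : w 1 = (0 : E2) 1 := by rw [h]
          simpa [hw] using this
        rw [h1, mul_zero] at k1
        rw [h0, h1, mul_zero, mul_zero, add_zero] at k0
        ext i
        fin_cases i
        · exact k0.symm
        · exact k1.symm
      obtain ⟨_, θ, hθ, hθ2⟩ := hform w hwne
      have c0 : w 0 = ‖w‖ * Real.cos θ := by
        conv_lhs => rw [hθ]
        simp
      have c1 : w 1 = ‖w‖ * Real.sin θ := by
        conv_lhs => rw [hθ]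
        simp
      have hwn : 0 < ‖w‖ := norm_pos_iff.2 hwne
      have h1 : ip (x - c) θ ≤ G K c θ := by
        have := le_hs hK.cpt hx θ
        rw [ip_sub]
        unfold G
        linarith
      have h2 : ‖w‖ * ip (x - c) θ = ‖y‖ ^ 2 := by
        rw [← hy', hip, norm_sq_E2]
        have : ‖w‖ * (y 0 * (p * Real.cos θ + q * Real.sin θ) + y 1 * (s * Real.sin θ)) =
            y 0 * (p * (‖w‖ * Real.cos θ) + q * (‖w‖ * Real.sin θ)) +
              y 1 * (s * (‖w‖ * Real.sin θ)) := by ring
        rw [this, ← c0, ← c1]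
        simp only [hw, pt_zero, pt_one]
        rw [k0, k1]
        ring
      have h3 : (‖w‖ * G K c θ) ^ 2 = ‖y‖ ^ 2 := by
        rw [← hθ2, norm_sq_E2, ← k0, ← k1, ← hp2, ← hq1, ← hs2]
        simp only [hw, pt_zero, pt_one]
        ring
      have h4 : ‖w‖ * G K c θ = ‖y‖ := by
        have a1 : 0 ≤ ‖w‖ * G K c θ := mul_nonneg hwn.le (hpos θ).le
        exact (pow_left_inj₀ a1 (norm_nonneg y) two_ne_zero).1 h3
      have h5 : ‖y‖ ^ 2 ≤ ‖y‖ := by
        rw [← h2, ← h4]
        exact mul_le_mul_of_nonneg_left h1 hwn.le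
      have hyn : 0 < ‖y‖ := norm_pos_iff.2 hy0
      nlinarith
    · rw [hf, hy']
      abel
  · rintro ⟨y, hy, rfl⟩
    rw [mem_closedBall_zero_iff] at hy
    apply mem_of_ip_le hK.cpt hK.cvx hK.ne
    intro θ
    rw [hf, ip_add, hip]
    have h1 : y 0 * (p * Real.cos θ + q * Real.sin θ) + y 1 * (s * Real.sin θ) ≤ G K c θ := by
      have h2 := hform2 θ
      have h3 : y 0 ^ 2 + y 1 ^ 2 ≤ 1 := by
        rw [← norm_sq_E2]
        have := norm_nonneg y
        nlinarith
      set a := p * Real.cos θ + q * Real.sin θ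
      set b := s * Real.sin θ
      have h4 : (y 0 * a + y 1 * b) ^ 2 ≤ (y 0 ^ 2 + y 1 ^ 2) * (a ^ 2 + b ^ 2) := by
        nlinarith [sq_nonneg (y 0 * b - y 1 * a)]
      have h5 : (y 0 * a + y 1 * b) ^ 2 ≤ G K c θ ^ 2 := by
        rw [h2]
        refine h4.trans ?_
        have : 0 ≤ a ^ 2 + b ^ 2 := by positivity
        nlinarith
      exact abs_le_of_sq_le_sq' h5 (hpos θ).le |>.2
    unfold G at h1
    linarith

/-- transitivity characterises ellipses -/
theorem main {K : Set E2} (hK : Body K) (hT : Tr K) :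
    ∃ f : E2 ≃ᵃ[ℝ] E2, K = f '' Metric.closedBall 0 1 := by
  obtain ⟨c, hpos, hsym⟩ := exists_center hK hT
  obtain ⟨α, β, γ, hq⟩ := quad hK hT hpos hsym
  exact ellipse hK hpos hq

end Pool.Agent.Helper713_string
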