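import Pool.Agent.Helper713_string.Geo

/-!
Transitivity of the string construction: first consequences, central symmetry.
-/

set_option autoImplicit false
open MeasureTheory Metric Set Filter Topology
open scoped ENNReal

namespace Pool.Agent.Helper713_string

open Pool.Agent.Y508

/-- transitivity of the string construction -/
def Tr (K : Set E2) : Prop := ∀ l1, W K < l1 → ∀ l2, W (Lv K l1) < l2 →
  ∃ l3, {y : E2 | P (Lv K l1) y = l2} = {y : E2 | P K y = l3}

theorem level {K : Set E2} (hK : Body K) (hT : Tr K) {l : ℝ} (hl : W K < l) {x y : E2}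
    (hx : x ∉ Lv K l) (hxy : P K x = P K y) : P (Lv K l) x = P (Lv K l) y := by
  have h1 := lt_P (Lv_body hK hl.le) hx
  obtain ⟨l3, h3⟩ := hT l hl _ h1
  have hx3 : x ∈ {y : E2 | P K y = l3} := by
    rw [← h3]; rfl
  have hx4 : P K x = l3 := hx3
  have hy : y ∈ {y : E2 | P (Lv K l) y = P (Lv K l) x} := by
    rw [h3]
    show P K y = l3
    rw [← hxy, hx4]
  have hy' : P (Lv K l) y = P (Lv K l) x := hy
  exact hy'.symm

theorem G_Lv_ge {K : Set E2} (hK : Body K) {l : ℝ} (hl : W K ≤ l) (v : E2) (θ : ℝ) :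
    G K v θ ≤ G (Lv K l) v θ := by
  unfold G
  have := hs_mono (Lv_body hK hl).cpt hK.ne (sub_Lv hK.cpt hl) θ
  linarith

theorem cmp {K : Set E2} (hK : Body K) (hT : Tr K) {v : E2} (hpos : ∀ θ, 0 < G K v θ) {l : ℝ}
    (hl : W K < l) (θ θ' : ℝ) :
    Hf (G (Lv K l) v) θ - Hf (G K v) θ = Hf (G (Lv K l) v) θ' - Hf (G K v) θ' ∧
    Sf (G (Lv K l) v) θ - Sf (G K v) θ = Sf (G (Lv K l) v) θ' - Sf (G K v) θ' := by
  have hL := Lv_body hK hl.le
  obtain ⟨B, hB⟩ := hL.cpt.isBounded.exists_norm_le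
  have hsub := sub_Lv hK.cpt hl.le
  have hg := G_good hK.cpt hK.ne (fun x hx => hB x (hsub hx)) hpos
  have hpos1 : ∀ θ, 0 < G (Lv K l) v θ := fun θ => (hpos θ).trans_le (G_Lv_ge hK hl.le v θ)
  have hg1 := G_good hL.cpt hL.ne hB hpos1
  have hl0 : 0 < l := (W_pos hK).trans hl
  apply compare (R0 := l) hg hg1
  intro a b R R' hR hR' hJ
  rw [← P_J hK.cpt, ← P_J hK.cpt] at hJ
  rw [← P_J hL.cpt, ← P_J hL.cpt]
  apply level hK hT hl _ hJ
  intro hmem
  have h1 : P K (v + R • ev a) ≤ l := hmem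
  have h2 := P_ge hK.cpt hpos hK.ne (v + R • ev a)
  rw [add_sub_cancel_left, norm_smul, norm_ev, mul_one, Real.norm_eq_abs,
    abs_of_pos (by linarith)] at h2
  linarith

theorem Hf_eq {g : ℝ → ℝ} (hg : Continuous g) (θ : ℝ) :
    Hf g θ = (∫ s in (0 : ℝ)..(θ + 3 * Real.pi / 2), g s) -
      ∫ s in (0 : ℝ)..(θ + Real.pi / 2), g s := by
  unfold Hf
  rw [intervalIntegral.integral_comp_add_left (fun s => g s) θ]
  rw [intervalIntegral.integral_interval_sub_left (hg.intervalIntegrable _ _)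
    (hg.intervalIntegrable _ _)]

theorem Hf_deriv {g : ℝ → ℝ} (hg : Continuous g) (θ : ℝ) :
    HasDerivAt (Hf g) (g (θ + 3 * Real.pi / 2) - g (θ + Real.pi / 2)) θ := by
  have h1 : ∀ a : ℝ, HasDerivAt (fun θ => ∫ s in (0 : ℝ)..(θ + a), g s) (g (θ + a)) θ := by
    intro a
    have := (hg.integral_hasStrictDerivAt 0 (θ + a)).hasDerivAt
    exact this.comp_add_const θ a
  have h2 := (h1 (3 * Real.pi / 2)).sub (h1 (Real.pi / 2))
  have e : Hf g = fun θ => (∫ s in (0 : ℝ)..(θ + 3 * Real.pi / 2), g s) -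
      ∫ s in (0 : ℝ)..(θ + Real.pi / 2), g s := by
    ext θ; exact Hf_eq hg θ
  rw [e]
  exact h2

theorem odd_part {K : Set E2} (hK : Body K) (hT : Tr K) {v : E2} (hpos : ∀ θ, 0 < G K v θ)
    {l : ℝ} (hl : W K < l) (φ : ℝ) :
    G (Lv K l) v (φ + Real.pi) - G (Lv K l) v φ = G K v (φ + Real.pi) - G K v φ := by
  have hL := Lv_body hK hl.le
  have h1 := (Hf_deriv (G_cont hL.cpt v) (φ - Real.pi / 2)).sub
    (Hf_deriv (G_cont hK.cpt v) (φ - Real.pi / 2))
  have h2 : (Hf (G (Lv K l) v) - Hf (G K v)) =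
      fun _ => Hf (G (Lv K l) v) 0 - Hf (G K v) 0 := by
    ext θ
    exact (cmp hK hT hpos hl θ 0).1
  rw [h2] at h1
  have h3 := h1.unique (hasDerivAt_const _ _)
  have e1 : φ - Real.pi / 2 + 3 * Real.pi / 2 = φ + Real.pi := by ring
  have e2 : φ - Real.pi / 2 + Real.pi / 2 = φ := by ring
  rw [e1, e2] at h3
  linarith

theorem even_part {K : Set E2} (hK : Body K) (hT : Tr K) {v : E2} (hpos : ∀ θ, 0 < G K v θ)
    {l : ℝ} (hl : W K < l) (φ φ' : ℝ) :
    G (Lv K l) v (φ + Real.pi) ^ 2 + G (Lv K l) v φ ^ 2 -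
      (G K v (φ + Real.pi) ^ 2 + G K v φ ^ 2) =
    G (Lv K l) v (φ' + Real.pi) ^ 2 + G (Lv K l) v φ' ^ 2 -
      (G K v (φ' + Real.pi) ^ 2 + G K v φ' ^ 2) := by
  have h := (cmp hK hT hpos hl (φ + Real.pi / 2) (φ' + Real.pi / 2)).2
  unfold Sf at h
  have e1 : ∀ a : ℝ, a + Real.pi / 2 + Real.pi / 2 = a + Real.pi := by intro a; ring
  have e2 : ∀ a : ℝ, a + Real.pi / 2 - Real.pi / 2 = a := by intro a; ring
  simp only [e1, e2] at h
  exact h

theorem ip_add_angle (z : E2) (φ s : ℝ) :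
    ip z (φ + s) = ip z φ * Real.cos s + ip z (φ + Real.pi / 2) * Real.sin s := by
  simp only [ip, Real.cos_add, Real.sin_add, Real.cos_pi_div_two, Real.sin_pi_div_two]
  ring

theorem int_ip_arc (z : E2) (φ a : ℝ) :
    ∫ s in (φ - a)..(φ + a), ip z s = 2 * Real.sin a * ip z φ := by
  have h1 := intervalIntegral.integral_comp_add_left (a := -a) (b := a) (fun s => ip z s) φ
  rw [← sub_eq_add_neg] at h1
  rw [← h1]
  have h2 : ∫ s in (-a)..a, ip z (φ + s) =
      ∫ s in (-a)..a, (ip z φ * Real.cos s + ip z (φ + Real.pi / 2) * Real.sin s) := by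
    apply intervalIntegral.integral_congr
    intro s _
    exact ip_add_angle z φ s
  rw [h2, intervalIntegral.integral_add (by apply Continuous.intervalIntegrable; fun_prop)
    (by apply Continuous.intervalIntegrable; fun_prop), intervalIntegral.integral_const_mul,
    intervalIntegral.integral_const_mul, integral_cos, integral_sin, Real.sin_neg, Real.cos_neg]
  ring

/-- the perimeter function as an integral over an arbitrary period -/
theorem P_shift {K : Set E2} (hK : IsCompact K) (v x : E2) (a : ℝ) :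
    P K x = ∫ s in a..(a + 2 * Real.pi), max (G K v s) (ip (x - v) s) := by
  rw [P_eq hK v]
  have hF : Function.Periodic (fun s => max (G K v s) (ip (x - v) s)) (2 * Real.pi) := by
    intro s
    show max (G K v (s + 2 * Real.pi)) (ip (x - v) (s + 2 * Real.pi)) = _
    rw [G_per, ip_two_pi]
  have h1 := hF.intervalIntegral_add_eq 0 a
  rw [zero_add] at h1
  exact h1

theorem upper {K : Set E2} (hK : IsCompact K) (v x : E2) (φ : ℝ) :
    2 * ip (x - v) φ + Hf (G K v) φ ≤ P K x := by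
  have hpi := Real.pi_pos
  have hc : Continuous (fun s => max (G K v s) (ip (x - v) s)) := (G_cont hK v).max (cont_ip _)
  rw [P_shift hK v x (φ - Real.pi / 2),
    ← intervalIntegral.integral_add_adjacent_intervals (b := φ + Real.pi / 2)
      (hc.intervalIntegrable _ _) (hc.intervalIntegrable _ _)]
  have h1 := int_ip_arc (x - v) φ (Real.pi / 2)
  rw [Real.sin_pi_div_two, mul_one] at h1
  rw [← h1]
  have e : Hf (G K v) φ = ∫ s in (φ + Real.pi / 2)..(φ - Real.pi / 2 + 2 * Real.pi), G K v s := by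
    unfold Hf
    rw [intervalIntegral.integral_comp_add_left (fun s => G K v s) φ]
    congr 1
    ring
  rw [e]
  apply add_le_add
  · apply intervalIntegral.integral_mono_on (by linarith) ((cont_ip _).intervalIntegrable _ _)
      (hc.intervalIntegrable _ _)
    intro s _
    exact le_max_right _ _
  · apply intervalIntegral.integral_mono_on (by linarith) ((G_cont hK v).intervalIntegrable _ _)
      (hc.intervalIntegrable _ _)
    intro s _
    exact le_max_left _ _

theorem lim_G {K : Set E2} (hK : Body K) {v : E2} (hpos : ∀ θ, 0 < G K v θ) (φ : ℝ) :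
    Tendsto (fun l => G (Lv K l) v φ - l / 2) atTop (𝓝 (-(Hf (G K v) φ) / 2)) := by
  obtain ⟨B, hB⟩ := hK.cpt.isBounded.exists_norm_le
  have hg := G_good hK.cpt hK.ne hB hpos
  set ρ := B + ‖v‖ with hρ
  have hρ0 : 0 < ρ := (hg.pos 0).trans_le (hg.le 0)
  set H := Hf (G K v) φ with hH
  rw [Metric.tendsto_atTop]
  intro ε hε
  -- choose l large
  set S := Sf (G K v) φ with hS
  have hlim : Tendsto (fun R : ℝ => S / (2 * R) + 12 * ρ ^ 3 / R ^ 2) atTop (𝓝 0) := by
    have h1 : Tendsto (fun R : ℝ => R⁻¹) atTop (𝓝 0) := tendsto_inv_atTop_zero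
    have h2 : Tendsto (fun R : ℝ => S / 2 * R⁻¹ + 12 * ρ ^ 3 * (R⁻¹ * R⁻¹)) atTop
        (𝓝 (S / 2 * 0 + 12 * ρ ^ 3 * (0 * 0))) :=
      (h1.const_mul _).add ((h1.mul h1).const_mul _)
    simp only [mul_zero, add_zero] at h2
    refine h2.congr' ?_
    filter_upwards [eventually_gt_atTop 0] with R hR
    field_simp
  have hev : ∀ᶠ R : ℝ in atTop, S / (2 * R) + 12 * ρ ^ 3 / R ^ 2 < ε ∧ 2 * ρ ≤ R :=
    ((tendsto_order.1 hlim).2 ε hε).and (eventually_ge_atTop _)
  obtain ⟨R1, hR1⟩ := eventually_atTop.1 hev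
  refine ⟨max (W K + 1) (2 * R1 + H + ε), fun l hl => ?_⟩
  have hl1 : W K + 1 ≤ l := (le_max_left _ _).trans hl
  have hl2 : 2 * R1 + H + ε ≤ l := (le_max_right _ _).trans hl
  have hL := Lv_body hK (l := l) (by linarith)
  -- upper bound
  have hup : G (Lv K l) v φ ≤ (l - H) / 2 := by
    unfold G
    have : hs (Lv K l) φ ≤ ip v φ + (l - H) / 2 := by
      apply hs_le hL.ne
      intro x hx
      have hx' : P K x ≤ l := hx
      have := upper hK.cpt v x φ
      rw [ip_sub] at this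
      linarith
    linarith
  -- lower bound
  have hlow : (l - H - ε) / 2 ≤ G (Lv K l) v φ := by
    set R := (l - H - ε) / 2 with hR
    have hRR : R1 ≤ R := by rw [hR]; linarith
    obtain ⟨h3, h4⟩ := hR1 R hRR
    have h5 := (abs_le.1 (J_asym hg φ h4)).2
    have h6 : v + R • ev φ ∈ Lv K l := by
      show P K (v + R • ev φ) ≤ l
      rw [P_J hK.cpt]
      have h7 : J (G K v) φ R ≤ 2 * R + H + ε := by
        rw [← hH, ← hS] at h5
        linarith
      have h8 : 2 * R + H + ε = l := by rw [hR]; ring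
      linarith
    have h7 := le_hs hL.cpt h6 φ
    rw [ip_add, ip_smul, ip_ev, sub_self, Real.cos_zero, mul_one] at h7
    unfold G
    linarith
  rw [Real.dist_eq, abs_lt]
  constructor <;> linarith

theorem odd_eq {K : Set E2} (hK : Body K) (hT : Tr K) {v : E2} (hpos : ∀ θ, 0 < G K v θ)
    (φ : ℝ) : G K v φ - G K v (φ + Real.pi) =
      (Hf (G K v) (φ + Real.pi) - Hf (G K v) φ) / 2 := by
  have h1 := (lim_G hK hpos φ).sub (lim_G hK hpos (φ + Real.pi))
  have h2 : Tendsto (fun l => (G (Lv K l) v φ - l / 2) - (G (Lv K l) v (φ + Real.pi) - l / 2))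
      atTop (𝓝 (G K v φ - G K v (φ + Real.pi))) := by
    apply tendsto_const_nhds.congr'
    filter_upwards [eventually_gt_atTop (W K)] with l hl
    have := odd_part hK hT hpos hl φ
    linarith
  have h3 := tendsto_nhds_unique h1 h2
  linarith

theorem odd_deriv {K : Set E2} (hK : Body K) (hT : Tr K) {v : E2} (hpos : ∀ θ, 0 < G K v θ)
    (φ : ℝ) : HasDerivAt (fun φ => G K v φ - G K v (φ + Real.pi))
      (G K v (φ + Real.pi / 2) - G K v (φ + Real.pi / 2 + Real.pi)) φ := by
  have e : (fun φ => G K v φ - G K v (φ + Real.pi)) =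
      fun φ => (Hf (G K v) (φ + Real.pi) - Hf (G K v) φ) / 2 := by
    ext φ; exact odd_eq hK hT hpos φ
  rw [e]
  have hc := G_cont hK.cpt v
  have h1 : HasDerivAt (fun φ => Hf (G K v) (φ + Real.pi))
      (G K v (φ + Real.pi + 3 * Real.pi / 2) - G K v (φ + Real.pi + Real.pi / 2)) φ := by
    exact (Hf_deriv hc (φ + Real.pi)).comp_add_const φ Real.pi
  have h2 := (h1.sub (Hf_deriv hc φ)).div_const 2
  refine h2.congr_deriv ?_
  have e1 : φ + Real.pi + 3 * Real.pi / 2 = (φ + Real.pi / 2) + 2 * Real.pi := by ring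
  have e2 : φ + Real.pi + Real.pi / 2 = φ + Real.pi / 2 + Real.pi := by ring
  have e3 : φ + 3 * Real.pi / 2 = φ + Real.pi / 2 + Real.pi := by ring
  rw [e1, e2, e3, G_per]
  ring

theorem odd_linear {K : Set E2} (hK : Body K) (hT : Tr K) {v : E2} (hpos : ∀ θ, 0 < G K v θ)
    (φ : ℝ) : G K v φ - G K v (φ + Real.pi) =
      (G K v 0 - G K v (0 + Real.pi)) * Real.cos φ +
      (G K v (Real.pi / 2) - G K v (Real.pi / 2 + Real.pi)) * Real.sin φ := by
  set o : ℝ → ℝ := fun φ => G K v φ - G K v (φ + Real.pi) with ho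
  set a := o 0 with ha
  set b := o (Real.pi / 2) with hb
  set w : ℝ → ℝ := fun φ => o φ - a * Real.cos φ - b * Real.sin φ with hw
  have hod : ∀ φ, HasDerivAt o (o (φ + Real.pi / 2)) φ := fun φ => odd_deriv hK hT hpos φ
  have hopi : ∀ φ, o (φ + Real.pi) = - o φ := by
    intro φ
    simp only [ho]
    have : φ + Real.pi + Real.pi = φ + 2 * Real.pi := by ring
    rw [this, G_per]
    ring
  have hwd : ∀ φ, HasDerivAt w (w (φ + Real.pi / 2)) φ := by
    intro φ
    have h1 := ((hod φ).sub ((Real.hasDerivAt_cos φ).const_mul a)).sub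
      ((Real.hasDerivAt_sin φ).const_mul b)
    refine h1.congr_deriv ?_
    simp only [hw, Real.cos_add_pi_div_two, Real.sin_add_pi_div_two]
    try ring
  have hwpi : ∀ φ, w (φ + Real.pi) = - w φ := by
    intro φ
    simp only [hw, hopi, Real.cos_add_pi, Real.sin_add_pi]
    ring
  have hEd : ∀ φ, HasDerivAt (fun φ => w φ ^ 2 + w (φ + Real.pi / 2) ^ 2) 0 φ := by
    intro φ
    have h1 := (hwd φ).pow 2
    have h2 : HasDerivAt (fun φ => w (φ + Real.pi / 2)) (w (φ + Real.pi / 2 + Real.pi / 2)) φ := by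
      exact (hwd (φ + Real.pi / 2)).comp_add_const φ (Real.pi / 2)
    have h3 := h1.add (h2.pow 2)
    refine h3.congr_deriv ?_
    have e : φ + Real.pi / 2 + Real.pi / 2 = φ + Real.pi := by ring
    rw [e, hwpi]
    push_cast
    ring
  have hconst : ∀ φ, w φ ^ 2 + w (φ + Real.pi / 2) ^ 2 = w 0 ^ 2 + w (0 + Real.pi / 2) ^ 2 := by
    intro φ
    exact is_const_of_deriv_eq_zero (f := fun φ => w φ ^ 2 + w (φ + Real.pi / 2) ^ 2)
      (fun φ => (hEd φ).differentiableAt) (fun φ => (hEd φ).deriv) φ 0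
  have hw0 : w 0 = 0 := by
    simp only [hw, Real.cos_zero, Real.sin_zero]
    rw [← ha]; ring
  have hw1 : w (0 + Real.pi / 2) = 0 := by
    rw [zero_add]
    simp only [hw, Real.cos_pi_div_two, Real.sin_pi_div_two]
    rw [← hb]; ring
  have h := hconst φ
  rw [hw0, hw1] at h
  have h2 : w φ = 0 := by nlinarith [sq_nonneg (w φ), sq_nonneg (w (φ + Real.pi / 2))]
  have h3 : o φ = a * Real.cos φ + b * Real.sin φ := by
    have : w φ = o φ - a * Real.cos φ - b * Real.sin φ := rfl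
    linarith
  exact h3

/-- the body is centrally symmetric -/
theorem exists_center {K : Set E2} (hK : Body K) (hT : Tr K) :
    ∃ c : E2, (∀ φ, 0 < G K c φ) ∧ ∀ φ, G K c (φ + Real.pi) = G K c φ := by
  obtain ⟨v, hv⟩ := hK.int
  have hpos := G_pos_int hK.cpt hv
  set a := (G K v 0 - G K v (0 + Real.pi)) with ha
  set b := (G K v (Real.pi / 2) - G K v (Real.pi / 2 + Real.pi)) with hb
  have hlin := odd_linear hK hT hpos
  have hc : ∀ φ, G K (v + pt (a / 2) (b / 2)) φ = (G K v φ + G K v (φ + Real.pi)) / 2 := by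
    intro φ
    have h1 := hlin φ
    rw [← ha, ← hb] at h1
    have h2 : G K (v + pt (a / 2) (b / 2)) φ =
        G K v φ - (a / 2 * Real.cos φ + b / 2 * Real.sin φ) := by
      unfold G
      rw [ip_add]
      simp only [ip, pt_zero, pt_one]
      ring
    rw [h2]
    linarith
  refine ⟨v + pt (a / 2) (b / 2), fun φ => ?_, fun φ => ?_⟩
  · rw [hc]
    have := hpos φ
    have := hpos (φ + Real.pi)
    linarith
  · rw [hc, hc]
    have : φ + Real.pi + Real.pi = φ + 2 * Real.pi := by ring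
    rw [this, G_per]
    ring

end Pool.Agent.Helper713_string
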