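import Pool.Agent.Y508.PerimLow
import Pool.Agent.Helper713_string.Asym

/-!
The perimeter of the convex hull of a plane convex body and a point, as a function of the point.
-/

set_option autoImplicit false
open MeasureTheory Metric Set Filter Topology
open scoped ENNReal

namespace Pool.Agent.Helper713_string

open Pool.Agent.Y508

/-- the perimeter of the convex hull of `K` and `x` -/
noncomputable def P (K : Set E2) (x : E2) : ℝ :=
  ∫ θ in (0 : ℝ)..(2 * Real.pi), max (hs K θ) (ip x θ)

/-- the region bounded by the curve given by the string construction -/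
def Lv (K : Set E2) (l : ℝ) : Set E2 := {x | P K x ≤ l}

/-- support function with respect to the point `v` -/
noncomputable def G (K : Set E2) (v : E2) (θ : ℝ) : ℝ := hs K θ - ip v θ

theorem hull_compact {K : Set E2} (hK : Body K) (x : E2) :
    IsCompact (convexHull ℝ (insert x K)) := by
  have h1 : IsCompact ((fun p : E2 × ℝ => x + p.2 • (p.1 - x)) '' (K ×ˢ Icc (0 : ℝ) 1)) := by
    apply (hK.cpt.prod isCompact_Icc).image
    fun_prop
  have h2 : convexHull ℝ (insert x K) =
      (fun p : E2 × ℝ => x + p.2 • (p.1 - x)) '' (K ×ˢ Icc (0 : ℝ) 1) := by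
    rw [convexHull_insert hK.ne, hK.cvx.convexHull_eq]
    ext y
    simp only [mem_convexJoin, mem_singleton_iff, exists_eq_left]
    constructor
    · rintro ⟨b, hb, hy⟩
      rw [segment_eq_image'] at hy
      obtain ⟨t, ht, rfl⟩ := hy
      exact ⟨(b, t), ⟨hb, ht⟩, rfl⟩
    · rintro ⟨⟨b, t⟩, ⟨hb, ht⟩, rfl⟩
      refine ⟨b, hb, ?_⟩
      rw [segment_eq_image']
      exact ⟨t, ht, rfl⟩
  rw [h2]
  exact h1

theorem hull_body {K : Set E2} (hK : Body K) (x : E2) : Body (convexHull ℝ (insert x K)) where
  cpt := hull_compact hK x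
  cvx := convex_convexHull ℝ _
  int := hK.int.mono (interior_mono ((subset_insert x K).trans (subset_convexHull ℝ _)))

theorem hull_hs {K : Set E2} (hK : Body K) (x : E2) (θ : ℝ) :
    hs (convexHull ℝ (insert x K)) θ = max (hs K θ) (ip x θ) := by
  have hH := hull_body hK x
  apply le_antisymm
  · apply hs_le hH.ne
    have hconv : Convex ℝ {y : E2 | ip y θ ≤ max (hs K θ) (ip x θ)} := by
      intro y hy z hz a b ha hb hab
      simp only [mem_ofPred_eq] at hy hz ⊢
      rw [ip_add, ip_smul, ip_smul]
      calc a * ip y θ + b * ip z θ ≤ a * max (hs K θ) (ip x θ) + b * max (hs K θ) (ip x θ) :=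
            add_le_add (mul_le_mul_of_nonneg_left hy ha) (mul_le_mul_of_nonneg_left hz hb)
        _ = max (hs K θ) (ip x θ) := by rw [← add_mul, hab, one_mul]
    have hsub : insert x K ⊆ {y : E2 | ip y θ ≤ max (hs K θ) (ip x θ)} := by
      intro y hy
      rcases hy with rfl | hy
      · exact le_max_right (hs K θ) _
      · exact (le_hs hK.cpt hy θ).trans (le_max_left (hs K θ) (ip x θ))
    intro y hy
    exact convexHull_min hsub hconv hy
  · have h1 := hs_mono hH.cpt hK.ne ((subset_insert x K).trans (subset_convexHull ℝ _)) θ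
    have h2 := le_hs hH.cpt (subset_convexHull ℝ _ (mem_insert x K)) θ
    exact max_le h1 h2

theorem perim_hull {K : Set E2} (hK : Body K) (x : E2) :
    ((MeasureTheory.Measure.hausdorffMeasure 1 : Measure E2)
      (frontier (convexHull ℝ (insert x K)))).toReal = P K x := by
  rw [perim_eq (hull_body hK x)]
  unfold W P
  congr 1
  ext θ
  exact hull_hs hK x θ

theorem cont_max {K : Set E2} (hK : IsCompact K) (x : E2) :
    Continuous (fun θ => max (hs K θ) (ip x θ)) := (cont_hs hK).max (cont_ip x)

theorem P_cont {K : Set E2} (hK : IsCompact K) : Continuous (P K) := by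
  unfold P
  apply intervalIntegral.continuous_parametric_intervalIntegral_of_continuous'
  show Continuous (fun p : E2 × ℝ => max (hs K p.2) (ip p.1 p.2))
  exact ((cont_hs hK).comp continuous_snd).max (cont_ip2.comp (continuous_snd.prodMk continuous_fst))

theorem Lv_closed {K : Set E2} (hK : IsCompact K) (l : ℝ) : IsClosed (Lv K l) :=
  isClosed_le (P_cont hK) continuous_const

theorem Lv_convex {K : Set E2} (hK : IsCompact K) (l : ℝ) : Convex ℝ (Lv K l) := by
  intro x hx y hy a b ha hb hab
  have hx' : P K x ≤ l := hx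
  have hy' : P K y ≤ l := hy
  show P K (a • x + b • y) ≤ l
  have hpi := Real.pi_pos
  have h1 : P K (a • x + b • y) ≤ a * P K x + b * P K y := by
    unfold P
    rw [← intervalIntegral.integral_const_mul, ← intervalIntegral.integral_const_mul,
      ← intervalIntegral.integral_add]
    · apply intervalIntegral.integral_mono_on (by positivity)
      · exact (cont_max hK _).intervalIntegrable _ _
      · exact (((cont_max hK x).const_mul a).add ((cont_max hK y).const_mul b)).intervalIntegrable _ _
      · intro θ _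
        rw [ip_add, ip_smul, ip_smul]
        apply max_le
        · calc hs K θ = a * hs K θ + b * hs K θ := by rw [← add_mul, hab, one_mul]
            _ ≤ _ := add_le_add (mul_le_mul_of_nonneg_left (le_max_left _ _) ha)
              (mul_le_mul_of_nonneg_left (le_max_left _ _) hb)
        · exact add_le_add (mul_le_mul_of_nonneg_left (le_max_right _ _) ha)
              (mul_le_mul_of_nonneg_left (le_max_right _ _) hb)
    · exact ((cont_max hK x).const_mul a).intervalIntegrable _ _
    · exact ((cont_max hK y).const_mul b).intervalIntegrable _ _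
  have h2 : a * P K x + b * P K y ≤ l := by
    calc a * P K x + b * P K y ≤ a * l + b * l :=
          add_le_add (mul_le_mul_of_nonneg_left hx' ha) (mul_le_mul_of_nonneg_left hy' hb)
      _ = l := by rw [← add_mul, hab, one_mul]
  exact h1.trans h2

theorem int_ip (v : E2) : ∫ θ in (0 : ℝ)..(2 * Real.pi), ip v θ = 0 := by
  unfold ip
  rw [intervalIntegral.integral_add (by apply Continuous.intervalIntegrable; fun_prop)
    (by apply Continuous.intervalIntegrable; fun_prop), intervalIntegral.integral_const_mul,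
    intervalIntegral.integral_const_mul, integral_cos, integral_sin]
  simp

theorem G_cont {K : Set E2} (hK : IsCompact K) (v : E2) : Continuous (G K v) :=
  (cont_hs hK).sub (cont_ip v)

theorem G_per (K : Set E2) (v : E2) (θ : ℝ) : G K v (θ + 2 * Real.pi) = G K v θ := by
  unfold G
  rw [hs_two_pi, ip_two_pi]

/-- the perimeter function with respect to the point `v` -/
theorem P_eq {K : Set E2} (hK : IsCompact K) (v x : E2) :
    P K x = ∫ θ in (0 : ℝ)..(2 * Real.pi), max (G K v θ) (ip (x - v) θ) := by
  have h1 : P K x = ∫ θ in (0 : ℝ)..(2 * Real.pi), (ip v θ + max (G K v θ) (ip (x - v) θ)) := by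
    unfold P
    apply intervalIntegral.integral_congr
    intro θ _
    show max (hs K θ) (ip x θ) = ip v θ + max (G K v θ) (ip (x - v) θ)
    rw [ip_sub]
    unfold G
    rcases le_total (hs K θ) (ip x θ) with h | h
    · rw [max_eq_right h, max_eq_right (by linarith)]; ring
    · rw [max_eq_left h, max_eq_left (by linarith)]; ring
  rw [h1, intervalIntegral.integral_add ((cont_ip v).intervalIntegrable _ _)
    (((G_cont hK v).max (cont_ip _)).intervalIntegrable _ _), int_ip, zero_add]

theorem P_J {K : Set E2} (hK : IsCompact K) (v : E2) (θ R : ℝ) :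
    P K (v + R • ev θ) = J (G K v) θ R := by
  rw [P_eq hK v, add_sub_cancel_left]
  unfold J
  apply intervalIntegral.integral_congr
  intro s _
  show max (G K v s) (ip (R • ev θ) s) = max (G K v s) (R * Real.cos (s - θ))
  rw [ip_smul, ip_ev]

theorem W_eq {K : Set E2} (hK : IsCompact K) (v : E2) :
    W K = ∫ θ in (0 : ℝ)..(2 * Real.pi), G K v θ := by
  unfold W G
  rw [intervalIntegral.integral_sub ((cont_hs hK).intervalIntegrable _ _)
    ((cont_ip v).intervalIntegrable _ _), int_ip, sub_zero]

theorem exists_polar (v x : E2) : ∃ θ : ℝ, x = v + ‖x - v‖ • ev θ := by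
  by_cases h : x - v = 0
  · refine ⟨0, ?_⟩
    rw [h, norm_zero, zero_smul, add_zero]
    exact sub_eq_zero.1 h
  · obtain ⟨θ, hθ⟩ := exists_pos_ev _ h
    refine ⟨θ, ?_⟩
    rw [← hθ]; abel

theorem norm_ev_sub (a b : ℝ) : ‖ev a - ev b‖ ≤ |a - b| := by
  have h1 : ‖ev a - ev b‖ ^ 2 = 2 - 2 * Real.cos (a - b) := by
    rw [norm_sq_E2]
    simp only [PiLp.sub_apply, ev_zero, ev_one, Real.cos_sub]
    have h1 := Real.sin_sq_add_cos_sq a
    have h2 := Real.sin_sq_add_cos_sq b
    nlinarith
  have h2 := Real.one_sub_sq_div_two_le_cos (x := a - b)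
  have h3 : ‖ev a - ev b‖ ^ 2 ≤ |a - b| ^ 2 := by
    rw [h1, sq_abs]; linarith
  exact abs_le_of_sq_le_sq' h3 (abs_nonneg _) |>.2

theorem ip_lip (x : E2) (a b : ℝ) : |ip x a - ip x b| ≤ ‖x‖ * |a - b| := by
  have : ip x a - ip x b = inner ℝ x (ev a - ev b) := by
    rw [inner_sub_right, inner_ev, inner_ev]
  rw [this]
  refine (abs_real_inner_le_norm _ _).trans ?_
  exact mul_le_mul_of_nonneg_left (norm_ev_sub a b) (norm_nonneg _)

theorem hs_lip {K : Set E2} (hK : IsCompact K) (hne : K.Nonempty) {B : ℝ} (hB : ∀ x ∈ K, ‖x‖ ≤ B)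
    (a b : ℝ) : |hs K a - hs K b| ≤ B * |a - b| := by
  have key : ∀ a b, hs K a - hs K b ≤ B * |a - b| := by
    intro a b
    obtain ⟨x, hx, hxe⟩ := exists_hs hK hne a
    have h1 := le_hs hK hx b
    have h2 := (le_abs_self _).trans (ip_lip x a b)
    have h3 : ‖x‖ * |a - b| ≤ B * |a - b| := mul_le_mul_of_nonneg_right (hB x hx) (abs_nonneg _)
    rw [hxe]
    linarith
  rw [abs_le]
  constructor
  · have := key b a
    rw [abs_sub_comm] at this
    linarith
  · exact key a b

theorem hs_le_bound {K : Set E2} (hne : K.Nonempty) {B : ℝ} (hB : ∀ x ∈ K, ‖x‖ ≤ B) (θ : ℝ) :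
    hs K θ ≤ B := by
  apply hs_le hne
  intro x hx
  exact ((le_abs_self _).trans (abs_ip_le x θ)).trans (hB x hx)

theorem G_good {K : Set E2} (hK : IsCompact K) (hne : K.Nonempty) {B : ℝ}
    (hB : ∀ x ∈ K, ‖x‖ ≤ B) {v : E2} (hpos : ∀ θ, 0 < G K v θ) : Good (G K v) (B + ‖v‖) where
  cont := G_cont hK v
  per := G_per K v
  pos := hpos
  le := by
    intro s
    have h1 := hs_le_bound hne hB s
    have h2 := (neg_abs_le _).trans' (neg_le_neg (abs_ip_le v s))
    unfold G
    linarith
  lip := by
    intro a b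
    have h1 := hs_lip hK hne hB a b
    have h2 := ip_lip v a b
    unfold G
    have e : hs K a - ip v a - (hs K b - ip v b) = (hs K a - hs K b) - (ip v a - ip v b) := by ring
    rw [e]
    refine (abs_sub _ _).trans ?_
    rw [add_mul]
    exact add_le_add h1 h2

theorem G_pos_int {K : Set E2} (hK : IsCompact K) {v : E2} (hv : v ∈ interior K) (θ : ℝ) :
    0 < G K v θ := by
  obtain ⟨r, hr, hb⟩ := Metric.isOpen_iff.1 isOpen_interior v hv
  have h1 : v + (r / 2) • ev θ ∈ K := by
    apply interior_subset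
    apply hb
    rw [mem_ball, dist_eq_norm, add_sub_cancel_left, norm_smul, norm_ev, mul_one,
      Real.norm_eq_abs, abs_of_pos (by positivity)]
    linarith
  have h2 := le_hs hK h1 θ
  rw [ip_add, ip_smul, ip_ev, sub_self, Real.cos_zero] at h2
  unfold G
  linarith

theorem P_mem {K : Set E2} (hK : IsCompact K) {x : E2} (hx : x ∈ K) : P K x = W K := by
  unfold P W
  apply intervalIntegral.integral_congr
  intro θ _
  exact max_eq_left (le_hs hK hx θ)

theorem P_ge {K : Set E2} (hK : IsCompact K) {v : E2} (hpos : ∀ θ, 0 < G K v θ)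
    (hne : K.Nonempty) (x : E2) : 2 * ‖x - v‖ ≤ P K x := by
  obtain ⟨B, hB⟩ := hK.isBounded.exists_norm_le
  have hg := G_good hK hne hB hpos
  obtain ⟨θ, hθ⟩ := exists_polar v x
  have h1 := J_ge hg θ (norm_nonneg (x - v))
  have h2 := Hf_nonneg hg θ
  rw [← P_J hK v θ, ← hθ] at h1
  linarith

theorem sub_Lv {K : Set E2} (hK : IsCompact K) {l : ℝ} (hl : W K ≤ l) : K ⊆ Lv K l := by
  intro x hx
  show P K x ≤ l
  rw [P_mem hK hx]
  exact hl

theorem Lv_body {K : Set E2} (hK : Body K) {l : ℝ} (hl : W K ≤ l) : Body (Lv K l) where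
  cpt := by
    obtain ⟨v, hv⟩ := hK.int
    apply Metric.isCompact_of_isClosed_isBounded (Lv_closed hK.cpt l)
    rw [isBounded_iff_forall_norm_le]
    refine ⟨l / 2 + ‖v‖, fun x hx => ?_⟩
    have hx' : P K x ≤ l := hx
    have h1 := P_ge hK.cpt (G_pos_int hK.cpt hv) hK.ne x
    have h2 : ‖x‖ ≤ ‖x - v‖ + ‖v‖ := by
      have := norm_add_le (x - v) v
      rwa [sub_add_cancel] at this
    linarith
  cvx := Lv_convex hK.cpt l
  int := hK.int.mono (interior_mono (sub_Lv hK.cpt hl))

/-- outside of the body the perimeter function is larger than the perimeter -/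
theorem lt_P {K : Set E2} (hK : Body K) {x : E2} (hx : x ∉ K) : W K < P K x := by
  obtain ⟨θ0, hθ0⟩ := sep hK.cpt hK.cvx hK.ne hx
  have hpi := Real.two_pi_pos
  set F : ℝ → ℝ := fun θ => max (hs K θ) (ip x θ) - hs K θ with hF
  have hFc : Continuous F := (cont_max hK.cpt x).sub (cont_hs hK.cpt)
  have hF0 : ∀ θ, 0 ≤ F θ := fun θ => sub_nonneg.2 (le_max_left _ _)
  have hFper : Function.Periodic F (2 * Real.pi) := by
    intro θ
    simp only [hF, hs_two_pi, ip_two_pi]
  have hFpos : 0 < F θ0 := by
    simp only [hF]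
    rw [max_eq_right hθ0.le]
    linarith
  have h1 : P K x - W K = ∫ θ in (0 : ℝ)..(2 * Real.pi), F θ := by
    simp only [hF]
    rw [intervalIntegral.integral_sub ((cont_max hK.cpt x).intervalIntegrable _ _)
      ((cont_hs hK.cpt).intervalIntegrable _ _)]
    rfl
  have h2 := hFper.intervalIntegral_add_eq 0 θ0
  rw [zero_add] at h2
  have h3 : 0 < ∫ θ in θ0..(θ0 + 2 * Real.pi), F θ := by
    apply intervalIntegral.integral_pos (by linarith) hFc.continuousOn
    · intro θ _; exact hF0 θ
    · exact ⟨θ0, ⟨le_refl _, by linarith⟩, hFpos⟩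
  rw [← h2, ← h1] at h3
  linarith

end Pool.Agent.Helper713_string
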