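import Pool.Agent.Helper713_string.First

/-!
Transitivity of the string construction: the square of the support function is a quadratic form.
-/

set_option autoImplicit false
open MeasureTheory Metric Set Filter Topology
open scoped ENNReal

namespace Pool.Agent.Helper713_string

open Pool.Agent.Y508

theorem G_arc {K : Set E2} (hK : IsCompact K) (hne : K.Nonempty) (c : E2) {a b θ : ℝ}
    (h1 : 0 ≤ Real.sin (b - θ)) (h2 : 0 ≤ Real.sin (θ - a)) :
    Real.sin (b - a) * G K c θ ≤ Real.sin (b - θ) * G K c a + Real.sin (θ - a) * G K c b := by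
  have h3 := hs_arc hK hne h1 h2
  have h4 := ip_arc c a b θ
  unfold G
  nlinarith

/-- two tangent lines -/
theorem tangents {g : ℝ → ℝ} {φ ψ : ℝ} (h0 : 0 < ψ) (h1 : ψ < Real.pi / 2) :
    ∃ z : E2, ip z (φ + ψ) = g (φ + ψ) ∧ ip z (φ - ψ) = g (φ - ψ) ∧
      2 * Real.cos ψ * ip z φ = g (φ + ψ) + g (φ - ψ) ∧
      2 * Real.sin ψ * ip z (φ + Real.pi / 2) = g (φ + ψ) - g (φ - ψ) := by
  have hc : 0 < Real.cos ψ := Real.cos_pos_of_mem_Ioo ⟨by linarith, h1⟩
  have hs : 0 < Real.sin ψ := Real.sin_pos_of_pos_of_lt_pi h0 (by linarith [Real.pi_pos])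
  set r := (g (φ + ψ) + g (φ - ψ)) / (2 * Real.cos ψ) with hr
  set t := (g (φ + ψ) - g (φ - ψ)) / (2 * Real.sin ψ) with ht
  set z : E2 := r • ev φ + t • ev (φ + Real.pi / 2) with hz
  have hz1 : ip z φ = r := by
    rw [hz, ip_add, ip_smul, ip_smul, ip_ev, ip_ev, sub_self, Real.cos_zero]
    have : φ - (φ + Real.pi / 2) = -(Real.pi / 2) := by ring
    rw [this, Real.cos_neg, Real.cos_pi_div_two]
    ring
  have hz2 : ip z (φ + Real.pi / 2) = t := by
    rw [hz, ip_add, ip_smul, ip_smul, ip_ev, ip_ev, sub_self, Real.cos_zero]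
    have : φ + Real.pi / 2 - φ = Real.pi / 2 := by ring
    rw [this, Real.cos_pi_div_two]
    ring
  have e1 : 2 * Real.cos ψ * r = g (φ + ψ) + g (φ - ψ) := by
    rw [hr]; field_simp
  have e2 : 2 * Real.sin ψ * t = g (φ + ψ) - g (φ - ψ) := by
    rw [ht]; field_simp
  refine ⟨z, ?_, ?_, ?_, ?_⟩
  · rw [ip_add_angle, hz1, hz2]; linarith
  · have e3 : ip z (φ - ψ) = r * Real.cos ψ - t * Real.sin ψ := by
      rw [sub_eq_add_neg, ip_add_angle, hz1, hz2, Real.cos_neg, Real.sin_neg]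
      ring
    rw [e3]
    linarith
  · rw [hz1, e1]
  · rw [hz2, e2]

/-- the key identity, at points of differentiability -/
theorem key {K : Set E2} (hK : Body K) (hT : Tr K) {c : E2} (hpos : ∀ θ, 0 < G K c θ)
    (hsym : ∀ θ, G K c (θ + Real.pi) = G K c θ) {φ ψ : ℝ} (h0 : 0 < ψ) (h1 : ψ < Real.pi / 2)
    (hd : DifferentiableAt ℝ (fun θ => G K c θ ^ 2) φ) :
    G K c (φ + ψ) ^ 2 - G K c (φ - ψ) ^ 2 =
      deriv (fun θ => G K c θ ^ 2) φ * Real.sin (2 * ψ) := by
  have hpi := Real.pi_pos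
  have hcos : 0 < Real.cos ψ := Real.cos_pos_of_mem_Ioo ⟨by linarith, h1⟩
  have hsin : 0 < Real.sin ψ := Real.sin_pos_of_pos_of_lt_pi h0 (by linarith)
  have hsin2 : 0 < Real.sin (2 * ψ) := Real.sin_pos_of_pos_of_lt_pi (by linarith) (by linarith)
  set g := G K c with hg
  obtain ⟨z, hz1, hz2, hz3, hz4⟩ := tangents (g := g) (φ := φ) h0 h1
  have hr : 0 < ip z φ := by
    have := hpos (φ + ψ)
    have := hpos (φ - ψ)
    have h2 : 0 < 2 * Real.cos ψ * ip z φ := by rw [hz3]; linarith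
    exact (mul_pos_iff_of_pos_left (by positivity)).1 h2
  -- inside of the arc
  have hin : ∀ s ∈ Icc (φ - ψ) (φ + ψ), g s ≤ ip z s := by
    intro s hs
    have a1 : 0 ≤ Real.sin (φ + ψ - s) :=
      Real.sin_nonneg_of_nonneg_of_le_pi (by linarith [hs.2]) (by linarith [hs.1])
    have a2 : 0 ≤ Real.sin (s - (φ - ψ)) :=
      Real.sin_nonneg_of_nonneg_of_le_pi (by linarith [hs.1]) (by linarith [hs.2])
    have a3 := G_arc hK.cpt hK.ne c (a := φ - ψ) (b := φ + ψ) (θ := s) a1 a2
    have a4 := ip_arc z (φ - ψ) (φ + ψ) s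
    rw [← hg] at a3
    rw [hz1, hz2] at a4
    rw [← a4] at a3
    have e : φ + ψ - (φ - ψ) = 2 * ψ := by ring
    rw [e] at a3
    exact le_of_mul_le_mul_left a3 hsin2
  -- outside of the arc
  have hout : ∀ s ∈ Icc (φ + ψ) (φ - ψ + 2 * Real.pi), ip z s ≤ g s := by
    intro s hs
    rcases le_or_gt s (φ - ψ + Real.pi) with hs1 | hs1
    · have a1 : 0 ≤ Real.sin (s - (φ + ψ)) :=
        Real.sin_nonneg_of_nonneg_of_le_pi (by linarith [hs.1]) (by linarith)
      have e : φ + ψ - (φ - ψ) = 2 * ψ := by ring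
      have a2 : 0 ≤ Real.sin (φ + ψ - (φ - ψ)) := by rw [e]; exact hsin2.le
      have a3 := G_arc hK.cpt hK.ne c (a := φ - ψ) (b := s) (θ := φ + ψ) a1 a2
      have a4 := ip_arc z (φ - ψ) s (φ + ψ)
      rw [← hg] at a3
      rw [hz1, hz2] at a4
      rw [a4, e] at a3
      have a5 : Real.sin (2 * ψ) * ip z s ≤ Real.sin (2 * ψ) * g s := by linarith
      exact le_of_mul_le_mul_left a5 hsin2
    · rcases le_or_gt s (φ + ψ + Real.pi) with hs2 | hs2
      · have a1 := hin (s - Real.pi) ⟨by linarith, by linarith⟩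
        rw [ip_sub_pi] at a1
        have a2 := hpos (s - Real.pi)
        have a3 := hpos s
        linarith
      · have e : φ + ψ - (φ - ψ) = 2 * ψ := by ring
        have a1 : 0 ≤ Real.sin (φ + ψ - (φ - ψ)) := by rw [e]; exact hsin2.le
        have a2 : 0 ≤ Real.sin (φ - ψ - (s - 2 * Real.pi)) :=
          Real.sin_nonneg_of_nonneg_of_le_pi (by linarith [hs.2]) (by linarith)
        have a3 := G_arc hK.cpt hK.ne c (a := s - 2 * Real.pi) (b := φ + ψ) (θ := φ - ψ) a1 a2
        have a4 := ip_arc z (s - 2 * Real.pi) (φ + ψ) (φ - ψ)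
        rw [← hg] at a3
        rw [hz1, hz2] at a4
        have e3 : g (s - 2 * Real.pi) = g s := by
          have := G_per K c (s - 2 * Real.pi)
          rw [sub_add_cancel] at this
          rw [hg]; exact this.symm
        have e4 : ip z (s - 2 * Real.pi) = ip z s := by
          have := ip_two_pi z (s - 2 * Real.pi)
          rw [sub_add_cancel] at this
          exact this.symm
        rw [e3] at a3
        rw [e4] at a4
        rw [a4, e] at a3
        have a5 : Real.sin (2 * ψ) * ip z s ≤ Real.sin (2 * ψ) * g s := by linarith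
        exact le_of_mul_le_mul_left a5 hsin2
  set x : E2 := c + z with hx
  have hxc : x - c = z := by rw [hx, add_sub_cancel_left]
  -- comparison
  have hcomp : ∀ y : E2, P K x + 2 * Real.sin ψ * ip (y - x) φ ≤ P K y := by
    intro y
    have hc1 : Continuous (fun s => max (g s) (ip (x - c) s)) := (G_cont hK.cpt c).max (cont_ip _)
    have hc2 : Continuous (fun s => max (g s) (ip (y - c) s)) := (G_cont hK.cpt c).max (cont_ip _)
    rw [P_shift hK.cpt c x (φ - ψ), P_shift hK.cpt c y (φ - ψ),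
      ← intervalIntegral.integral_add_adjacent_intervals (b := φ + ψ)
      (hc1.intervalIntegrable _ _) (hc1.intervalIntegrable _ _),
      ← intervalIntegral.integral_add_adjacent_intervals (b := φ + ψ)
      (hc2.intervalIntegrable _ _) (hc2.intervalIntegrable _ _), ← int_ip_arc]
    have b1 : (∫ s in (φ - ψ)..(φ + ψ), max (g s) (ip (x - c) s)) +
        (∫ s in (φ - ψ)..(φ + ψ), ip (y - x) s) ≤
        ∫ s in (φ - ψ)..(φ + ψ), max (g s) (ip (y - c) s) := by
      rw [← intervalIntegral.integral_add (hc1.intervalIntegrable _ _)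
        ((cont_ip _).intervalIntegrable _ _)]
      apply intervalIntegral.integral_mono_on (by linarith)
        ((hc1.add (cont_ip _)).intervalIntegrable _ _) (hc2.intervalIntegrable _ _)
      intro s hs
      show max (g s) (ip (x - c) s) + ip (y - x) s ≤ max (g s) (ip (y - c) s)
      rw [hxc, max_eq_right (hin s hs)]
      refine le_trans (le_of_eq ?_) (le_max_right _ _)
      rw [← ip_add]
      congr 1
      rw [← hxc]; abel
    have b2 : (∫ s in (φ + ψ)..(φ - ψ + 2 * Real.pi), max (g s) (ip (x - c) s)) ≤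
        ∫ s in (φ + ψ)..(φ - ψ + 2 * Real.pi), max (g s) (ip (y - c) s) := by
      apply intervalIntegral.integral_mono_on (by linarith)
        (hc1.intervalIntegrable _ _) (hc2.intervalIntegrable _ _)
      intro s hs
      rw [hxc, max_eq_left (hout s hs)]
      exact le_max_left _ _
    linarith
  -- local minimum
  have hmin : IsLocalMin (fun s => g s ^ 2 - ip z s ^ 2) φ := by
    have hev : ∀ᶠ s in 𝓝 φ, 0 < ip z s :=
      (cont_ip z).continuousAt.eventually (lt_mem_nhds hr)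
    by_cases hxK : x ∈ K
    · have hle : ∀ s, ip z s ≤ g s := by
        intro s
        have := le_hs hK.cpt hxK s
        rw [← hxc, ip_sub, hg]
        unfold G
        linarith
      have heq : g φ = ip z φ := le_antisymm (hin φ ⟨by linarith, by linarith⟩) (hle φ)
      filter_upwards [hev] with s hs
      rw [heq, sub_self, sub_nonneg]
      exact pow_le_pow_left₀ hs.le (hle s) 2
    · have hl := lt_P hK hxK
      set l := P K x with hl'
      have hL := Lv_body hK hl.le
      have hxL : x ∈ Lv K l := by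
        show P K x ≤ l
        exact le_of_eq hl'.symm
      set g1 := G (Lv K l) c with hg1
      have hge : ∀ s, ip z s ≤ g1 s := by
        intro s
        have := le_hs hL.cpt hxL s
        rw [← hxc, ip_sub, hg1]
        unfold G
        linarith
      have heq : g1 φ = ip z φ := by
        apply le_antisymm _ (hge φ)
        have : hs (Lv K l) φ ≤ ip x φ := by
          apply hs_le hL.ne
          intro y hy
          have hy' : P K y ≤ P K x := hy
          have h5 := hcomp y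
          have h6 : 2 * Real.sin ψ * ip (y - x) φ ≤ 0 := by linarith
          have h7 : ip (y - x) φ ≤ 0 := by
            by_contra h8
            push Not at h8
            have : 0 < 2 * Real.sin ψ * ip (y - x) φ := by positivity
            linarith
          rw [ip_sub] at h7
          linarith
        rw [hg1, ← hxc, ip_sub]
        unfold G
        linarith
      have hodd : ∀ s, g1 (s + Real.pi) = g1 s := by
        intro s
        have := odd_part hK hT hpos hl s
        rw [← hg, ← hg1, hsym] at this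
        linarith
      filter_upwards [hev] with s hs
      have h5 := even_part hK hT hpos hl s φ
      rw [← hg, ← hg1, hodd, hodd, hsym, hsym, heq] at h5
      have h6 : ip z s ^ 2 ≤ g1 s ^ 2 := pow_le_pow_left₀ hs.le (hge s) 2
      show g φ ^ 2 - ip z φ ^ 2 ≤ g s ^ 2 - ip z s ^ 2
      linarith
  have hzd : HasDerivAt (fun s => ip z s) (ip z (φ + Real.pi / 2)) φ := by
    have h2 := ((Real.hasDerivAt_cos φ).const_mul (z 0)).add
      ((Real.hasDerivAt_sin φ).const_mul (z 1))
    refine h2.congr_deriv ?_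
    simp only [ip, Real.cos_add_pi_div_two, Real.sin_add_pi_div_two]
  have hder := hd.hasDerivAt.sub (hzd.pow 2)
  have h0' := hmin.hasDerivAt_eq_zero hder
  have h2 : deriv (fun θ => g θ ^ 2) φ = 2 * ip z φ * ip z (φ + Real.pi / 2) := by
    have h3 : deriv (fun θ => g θ ^ 2) φ - (2 : ℕ) * ip z φ ^ (2 - 1) * ip z (φ + Real.pi / 2) = 0 := h0'
    simp only [Nat.cast_ofNat, Nat.add_one_sub_one, pow_one] at h3
    linarith
  rw [h2, Real.sin_two_mul]
  have e : 2 * ip z φ * ip z (φ + Real.pi / 2) * (2 * Real.sin ψ * Real.cos ψ) =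
      (2 * Real.cos ψ * ip z φ) * (2 * Real.sin ψ * ip z (φ + Real.pi / 2)) := by ring
  rw [e, hz3, hz4]
  ring

theorem fe {K : Set E2} (hK : Body K) (hT : Tr K) {c : E2} (hpos : ∀ θ, 0 < G K c θ)
    (hsym : ∀ θ, G K c (θ + Real.pi) = G K c θ) (φ : ℝ) {ψ : ℝ} (h0 : 0 < ψ)
    (h1 : ψ < Real.pi / 2) :
    G K c (φ + ψ) ^ 2 - G K c (φ - ψ) ^ 2 =
      (G K c (φ + Real.pi / 4) ^ 2 - G K c (φ - Real.pi / 4) ^ 2) * Real.sin (2 * ψ) := by
  have hpi := Real.pi_pos
  obtain ⟨B, hB⟩ := hK.cpt.isBounded.exists_norm_le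
  have hg := G_good hK.cpt hK.ne hB hpos
  set ρ := B + ‖c‖ with hρ
  have hρ0 : 0 < ρ := (hg.pos 0).trans_le (hg.le 0)
  have hlip : LipschitzWith (Real.toNNReal (2 * ρ ^ 2)) (fun θ => G K c θ ^ 2) := by
    apply LipschitzWith.of_dist_le_mul
    intro a b
    rw [Real.dist_eq, Real.dist_eq, Real.coe_toNNReal _ (by positivity)]
    have e : G K c a ^ 2 - G K c b ^ 2 = (G K c a + G K c b) * (G K c a - G K c b) := by ring
    rw [e, abs_mul]
    have k1 : |G K c a + G K c b| ≤ 2 * ρ := by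
      rw [abs_of_pos (add_pos (hg.pos a) (hg.pos b))]
      linarith [hg.le a, hg.le b]
    have k2 := hg.lip a b
    calc |G K c a + G K c b| * |G K c a - G K c b| ≤ (2 * ρ) * (ρ * |a - b|) :=
          mul_le_mul k1 k2 (abs_nonneg _) (by positivity)
      _ = 2 * ρ ^ 2 * |a - b| := by ring
  have hae := hlip.ae_differentiableAt (μ := volume)
  have hdense : Dense {θ : ℝ | DifferentiableAt ℝ (fun θ => G K c θ ^ 2) θ} :=
    Measure.dense_of_ae hae
  have hGc := G_cont hK.cpt c
  have hclosed : IsClosed {θ : ℝ | G K c (θ + ψ) ^ 2 - G K c (θ - ψ) ^ 2 =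
      (G K c (θ + Real.pi / 4) ^ 2 - G K c (θ - Real.pi / 4) ^ 2) * Real.sin (2 * ψ)} := by
    apply isClosed_eq <;> fun_prop
  have hsub : {θ : ℝ | DifferentiableAt ℝ (fun θ => G K c θ ^ 2) θ} ⊆
      {θ : ℝ | G K c (θ + ψ) ^ 2 - G K c (θ - ψ) ^ 2 =
      (G K c (θ + Real.pi / 4) ^ 2 - G K c (θ - Real.pi / 4) ^ 2) * Real.sin (2 * ψ)} := by
    intro θ hθ
    have a1 := key hK hT hpos hsym h0 h1 hθ
    have a2 := key hK hT hpos hsym (ψ := Real.pi / 4) (by positivity) (by linarith) hθ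
    have e : 2 * (Real.pi / 4) = Real.pi / 2 := by ring
    rw [e, Real.sin_pi_div_two, mul_one] at a2
    show _ = _
    rw [a1, a2]
  have := (hdense.mono hsub).closure_eq
  rw [hclosed.closure_eq] at this
  have h2 : φ ∈ (univ : Set ℝ) := mem_univ _
  rw [← this] at h2
  exact h2

theorem fe_all {K : Set E2} (hK : Body K) (hT : Tr K) {c : E2} (hpos : ∀ θ, 0 < G K c θ)
    (hsym : ∀ θ, G K c (θ + Real.pi) = G K c θ) (φ ψ : ℝ) :
    G K c (φ + ψ) ^ 2 - G K c (φ - ψ) ^ 2 =
      (G K c (φ + Real.pi / 4) ^ 2 - G K c (φ - Real.pi / 4) ^ 2) * Real.sin (2 * ψ) := by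
  have hpi := Real.pi_pos
  have hsym' : ∀ θ, G K c (θ - Real.pi) = G K c θ := by
    intro θ
    have := hsym (θ - Real.pi)
    rw [sub_add_cancel] at this
    exact this.symm
  -- first for ψ in [0, π)
  have h1 : ∀ ψ, 0 ≤ ψ → ψ < Real.pi → G K c (φ + ψ) ^ 2 - G K c (φ - ψ) ^ 2 =
      (G K c (φ + Real.pi / 4) ^ 2 - G K c (φ - Real.pi / 4) ^ 2) * Real.sin (2 * ψ) := by
    intro ψ h0 h1
    rcases h0.eq_or_lt with h2 | h2
    · rw [← h2]; simp
    rcases lt_trichotomy ψ (Real.pi / 2) with h3 | h3 | h3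
    · exact fe hK hT hpos hsym φ h2 h3
    · rw [h3]
      have e1 : φ + Real.pi / 2 = φ - Real.pi / 2 + Real.pi := by ring
      have e2 : 2 * (Real.pi / 2) = Real.pi := by ring
      rw [e1, hsym, e2, Real.sin_pi]
      ring
    · have h4 := fe hK hT hpos hsym φ (ψ := Real.pi - ψ) (by linarith) (by linarith)
      have e1 : φ + (Real.pi - ψ) = φ - ψ + Real.pi := by ring
      have e2 : φ - (Real.pi - ψ) = φ + ψ - Real.pi := by ring
      have e3 : 2 * (Real.pi - ψ) = 2 * Real.pi - 2 * ψ := by ring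
      rw [e1, e2, e3, hsym, hsym', Real.sin_two_pi_sub] at h4
      linarith
  -- periodicity in ψ
  have hper : ∀ (ψ : ℝ) (k : ℤ), G K c (ψ + k * Real.pi) = G K c ψ := by
    intro ψ k
    have : Function.Periodic (G K c) Real.pi := hsym
    exact this.int_mul k ψ
  set m := toIcoMod hpi 0 ψ with hm
  set k := toIcoDiv hpi 0 ψ with hk
  have hmem := toIcoMod_mem_Ico hpi 0 ψ
  rw [zero_add, ← hm] at hmem
  have heq := toIcoMod_add_toIcoDiv_zsmul hpi 0 ψ
  rw [← hm, ← hk, zsmul_eq_mul] at heq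
  have h2 := h1 m hmem.1 hmem.2
  have e1 : φ + ψ = φ + m + (k : ℤ) * Real.pi := by rw [← heq]; ring
  have e2 : φ - ψ = φ - m + ((-k : ℤ) : ℝ) * Real.pi := by rw [← heq]; push_cast; ring
  have e3 : 2 * ψ = 2 * m + (k : ℤ) * (2 * Real.pi) := by rw [← heq]; ring
  rw [e1, e2, e3, hper, hper, Real.sin_add_int_mul_two_pi]
  exact h2

/-- the square of the support function is a quadratic form -/
theorem quad {K : Set E2} (hK : Body K) (hT : Tr K) {c : E2} (hpos : ∀ θ, 0 < G K c θ)
    (hsym : ∀ θ, G K c (θ + Real.pi) = G K c θ) :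
    ∃ α β γ : ℝ, ∀ θ, G K c θ ^ 2 =
      α * Real.cos θ ^ 2 + 2 * β * (Real.sin θ * Real.cos θ) + γ * Real.sin θ ^ 2 := by
  have hF := fe_all hK hT hpos hsym
  set E : ℝ → ℝ := fun θ => G K c θ ^ 2 with hE
  set D : ℝ → ℝ := fun φ => E (φ + Real.pi / 4) - E (φ - Real.pi / 4) with hD
  have hF' : ∀ φ ψ, E (φ + ψ) - E (φ - ψ) = D φ * Real.sin (2 * ψ) := hF
  refine ⟨E 0, D 0 / 2, E 0 + (D (Real.pi / 4) - D (-(Real.pi / 4))) / 2, fun θ => ?_⟩
  have a1 := hF' (θ / 2) (θ / 2)
  have a2 := hF' (-(θ / 2)) (θ / 2)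
  have a3 := hF' (Real.pi / 4) (θ / 2)
  have a4 := hF' (-(Real.pi / 4)) (θ / 2)
  have a5 := hF' 0 θ
  have e1 : θ / 2 + θ / 2 = θ := by ring
  have e2 : θ / 2 - θ / 2 = 0 := by ring
  have e3 : 2 * (θ / 2) = θ := by ring
  have e4 : -(θ / 2) + θ / 2 = 0 := by ring
  have e5 : -(θ / 2) - θ / 2 = -θ := by ring
  rw [e1, e2, e3] at a1
  rw [e4, e5, e3] at a2
  rw [e3] at a3 a4
  rw [zero_add, zero_sub, Real.sin_two_mul] at a5
  have d1 : D (θ / 2) = E (Real.pi / 4 + θ / 2) - E (-(Real.pi / 4) + θ / 2) := by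
    simp only [hD]
    congr 2 <;> ring
  have d2 : D (-(θ / 2)) = E (Real.pi / 4 - θ / 2) - E (-(Real.pi / 4) - θ / 2) := by
    simp only [hD]
    congr 2 <;> ring
  have hsc := Real.sin_sq_add_cos_sq θ
  show E θ = _
  have h1 : E θ + E (-θ) - 2 * E 0 =
      (D (Real.pi / 4) - D (-(Real.pi / 4))) * Real.sin θ ^ 2 := by
    have : E θ + E (-θ) - 2 * E 0 = (D (θ / 2) - D (-(θ / 2))) * Real.sin θ := by
      linarith
    rw [this, d1, d2]
    have h2 : E (Real.pi / 4 + θ / 2) - E (-(Real.pi / 4) + θ / 2) -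
        (E (Real.pi / 4 - θ / 2) - E (-(Real.pi / 4) - θ / 2)) =
        (D (Real.pi / 4) - D (-(Real.pi / 4))) * Real.sin θ := by linarith
    rw [h2]; ring
  have h2 : E θ - E (-θ) = 2 * D 0 * (Real.sin θ * Real.cos θ) := by
    rw [a5]; ring
  have h3 : E 0 = E 0 * (Real.sin θ ^ 2 + Real.cos θ ^ 2) := by rw [hsc, mul_one]
  nlinarith

end Pool.Agent.Helper713_string
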